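import Pool.Agent.Helper69.AGF.Star

/-!
# Faces of the triangles of a triangulation
-/

set_option autoImplicit false

noncomputable section

namespace Pool.Agent.Helper69.AGF

/-- A point of a face which misses the vertex `a` has first coordinate zero. -/
lemma det_eq_zero_of_notMem {a b c p : Pt} {s : Finset Pt} (hs : s ⊆ {a, b, c}) (ha : a ∉ s)
    (hp : p ∈ hull s) : det b c p = 0 := by
  have hsub : s ⊆ {b, c} := by
    intro q hq
    have h1 := hs hq
    simp only [Finset.mem_insert, Finset.mem_singleton] at h1 ⊢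
    rcases h1 with h1 | h1
    · exact absurd (h1 ▸ hq) ha
    · exact h1
  have h2 := hull_mono hsub hp
  rw [mem_hull2] at h2
  exact det_of_mem_segment h2

lemma subset_rot {a b c : Pt} {s : Finset Pt} (hs : s ⊆ {a, b, c}) : s ⊆ {b, c, a} := by
  intro q hq
  have h1 := hs hq
  simp only [Finset.mem_insert, Finset.mem_singleton] at h1 ⊢
  tauto

/-- A convex combination whose weights vanish off `s` is in the hull of `s`. -/
lemma mem_hull_of_weights {a b c : Pt} {s : Finset Pt} {x y z : ℝ} (hx : 0 ≤ x) (hy : 0 ≤ y)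
    (hz : 0 ≤ z) (h1 : x + y + z = 1) (ha : a ∉ s → x = 0) (hb : b ∉ s → y = 0)
    (hc : c ∉ s → z = 0) : x • a + y • b + z • c ∈ hull s := by
  by_cases hA : a ∈ s
  · by_cases hB : b ∈ s
    · by_cases hC : c ∈ s
      · have hsub : ({a, b, c} : Finset Pt) ⊆ s := by
          intro q hq
          simp only [Finset.mem_insert, Finset.mem_singleton] at hq
          rcases hq with rfl | rfl | rfl <;> assumption
        exact hull_mono hsub (mem_hull3_comb.2 ⟨x, y, z, hx, hy, hz, h1, rfl⟩)
      · rw [hc hC, zero_smul, add_zero]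
        exact (convex_hull s).segment_subset (subset_hull hA) (subset_hull hB)
          ⟨x, y, hx, hy, by rw [hc hC] at h1; linarith, rfl⟩
    · by_cases hC : c ∈ s
      · rw [hb hB, zero_smul, add_zero]
        exact (convex_hull s).segment_subset (subset_hull hA) (subset_hull hC)
          ⟨x, z, hx, hz, by rw [hb hB] at h1; linarith, rfl⟩
      · have e : x = 1 := by
          rw [hb hB, hc hC] at h1
          linarith
        rw [hb hB, hc hC, e, zero_smul, zero_smul, add_zero, add_zero, one_smul]
        exact subset_hull hA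
  · by_cases hB : b ∈ s
    · by_cases hC : c ∈ s
      · rw [ha hA, zero_smul, zero_add]
        exact (convex_hull s).segment_subset (subset_hull hB) (subset_hull hC)
          ⟨y, z, hy, hz, by rw [ha hA] at h1; linarith, rfl⟩
      · have e : y = 1 := by
          rw [ha hA, hc hC] at h1
          linarith
        rw [ha hA, hc hC, e, zero_smul, zero_smul, zero_add, add_zero, one_smul]
        exact subset_hull hB
    · by_cases hC : c ∈ s
      · have e : z = 1 := by
          rw [ha hA, hb hB] at h1
          linarith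
        rw [ha hA, hb hB, e, zero_smul, zero_smul, zero_add, zero_add, one_smul]
        exact subset_hull hC
      · exfalso
        rw [ha hA, hb hB, hc hC] at h1
        norm_num at h1

/-- Two faces of a nondegenerate triangle meet in the hull of their common vertices. -/
lemma hull_inter_subset {a b c : Pt} (h : 0 < det a b c) {s s' : Finset Pt}
    (hs : s ⊆ {a, b, c}) (hs' : s' ⊆ {a, b, c}) : hull s ∩ hull s' ⊆ hull (s ∩ s') := by
  rintro p ⟨hp, hp'⟩
  have hp3 := (mem_hull3 h).1 (hull_mono hs hp)
  have hza : a ∉ s ∩ s' → det b c p = 0 := by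
    intro ha
    rw [Finset.mem_inter, not_and_or] at ha
    rcases ha with ha | ha
    · exact det_eq_zero_of_notMem hs ha hp
    · exact det_eq_zero_of_notMem hs' ha hp'
  have hzb : b ∉ s ∩ s' → det c a p = 0 := by
    intro ha
    rw [Finset.mem_inter, not_and_or] at ha
    rcases ha with ha | ha
    · exact det_eq_zero_of_notMem (subset_rot hs) ha hp
    · exact det_eq_zero_of_notMem (subset_rot hs') ha hp'
  have hzc : c ∉ s ∩ s' → det a b p = 0 := by
    intro ha
    rw [Finset.mem_inter, not_and_or] at ha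
    rcases ha with ha | ha
    · exact det_eq_zero_of_notMem (subset_rot (subset_rot hs)) ha hp
    · exact det_eq_zero_of_notMem (subset_rot (subset_rot hs')) ha hp'
  rw [bary a b c p h.ne']
  refine mem_hull_of_weights (div_nonneg hp3.2.1 h.le) (div_nonneg hp3.2.2 h.le)
    (div_nonneg hp3.1 h.le) ?_ (fun ha => ?_) (fun ha => ?_) (fun ha => ?_)
  · have := det_split a b c p
    field_simp
    linarith
  · rw [hza ha, zero_div]
  · rw [hzb ha, zero_div]
  · rw [hzc ha, zero_div]

/-- The interior of a triangle meets no proper face. -/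
lemma interior_notMem_face {a b c : Pt} (h : 0 < det a b c) {s : Finset Pt}
    (hs : s ⊆ {a, b, c}) (hne : s ≠ {a, b, c}) {p : Pt} (hp : p ∈ interior (hull {a, b, c})) :
    p ∉ hull s := by
  intro hps
  rw [interior_hull3 h] at hp
  obtain ⟨h1, h2, h3⟩ := hp
  apply hne
  apply Finset.Subset.antisymm hs
  intro q hq
  simp only [Finset.mem_insert, Finset.mem_singleton] at hq
  rcases hq with rfl | rfl | rfl
  · by_contra hcon
    rw [det_eq_zero_of_notMem hs hcon hps] at h2
    exact lt_irrefl _ h2
  · by_contra hcon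
    rw [det_eq_zero_of_notMem (subset_rot hs) hcon hps] at h3
    exact lt_irrefl _ h3
  · by_contra hcon
    rw [det_eq_zero_of_notMem (subset_rot (subset_rot hs)) hcon hps] at h1
    exact lt_irrefl _ h1

variable {T : Finset (Finset Pt)}

theorem IsTri.card_three (hT : IsTri T) {t : Finset Pt} (ht : t ∈ T) : t.card = 3 := by
  obtain ⟨a, b, c, rfl, h⟩ := hT.tri t ht
  have hab : a ≠ b := by
    rintro rfl
    rw [det_aac] at h
    exact lt_irrefl _ h
  have hac : a ≠ c := by
    rintro rfl
    rw [det_aba] at h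
    exact lt_irrefl _ h
  have hbc : b ≠ c := by
    rintro rfl
    rw [det_abb] at h
    exact lt_irrefl _ h
  rw [Finset.card_insert_of_notMem (by simp [hab, hac]), Finset.card_pair hbc]

theorem IsTri.inter_ne (hT : IsTri T) {t t' : Finset Pt} (ht : t ∈ T) (ht' : t' ∈ T)
    (hne : t ≠ t') : t ∩ t' ≠ t := by
  intro h
  have hsub : t ⊆ t' := Finset.inter_eq_left.1 h
  exact hne (Finset.eq_of_subset_of_card_le hsub (by rw [hT.card_three ht, hT.card_three ht']))

/-- The interior of a triangle meets no other triangle. -/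
theorem IsTri.interior_disjoint (hT : IsTri T) {t t' : Finset Pt} (ht : t ∈ T) (ht' : t' ∈ T)
    (hne : t ≠ t') {p : Pt} (hp : p ∈ interior (hull t)) : p ∉ hull t' := by
  intro hp'
  have h1 := hT.glue t ht t' ht' ⟨interior_subset hp, hp'⟩
  have hne' := hT.inter_ne ht ht' hne
  obtain ⟨a, b, c, rfl, h⟩ := hT.tri t ht
  exact interior_notMem_face h Finset.inter_subset_left hne' hp h1

/-- The interior of a triangle meets no side. -/
theorem IsTri.interior_side (hT : IsTri T) {t e : Finset Pt} (ht : t ∈ T) (he : e ∈ sides T)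
    {p : Pt} (hp : p ∈ interior (hull t)) : p ∉ hull e := by
  intro hpe
  obtain ⟨h2, t', ht', hsub⟩ := mem_sides.1 he
  by_cases hne : t = t'
  · subst hne
    have hcard := hT.card_three ht
    obtain ⟨a, b, c, rfl, h⟩ := hT.tri t ht
    refine interior_notMem_face h hsub ?_ hp hpe
    intro h3
    rw [h3] at h2
    omega
  · exact hT.interior_disjoint ht ht' hne hp (hull_mono hsub hpe)

/-- Two sides meet in the hull of their common vertices. -/
theorem IsTri.sides_meet (hT : IsTri T) {e e' : Finset Pt} (he : e ∈ sides T)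
    (he' : e' ∈ sides T) : hull e ∩ hull e' ⊆ hull (e ∩ e') := by
  rintro p ⟨hp, hp'⟩
  obtain ⟨-, t, ht, hsub⟩ := mem_sides.1 he
  obtain ⟨-, t', ht', hsub'⟩ := mem_sides.1 he'
  have h1 := hT.glue t ht t' ht' ⟨hull_mono hsub hp, hull_mono hsub' hp'⟩
  -- in the first triangle
  have h2 : p ∈ hull (e ∩ (t ∩ t')) := by
    obtain ⟨a, b, c, rfl, h⟩ := hT.tri t ht
    exact hull_inter_subset h hsub Finset.inter_subset_left ⟨hp, h1⟩
  have h3 : p ∈ hull ((e ∩ (t ∩ t')) ∩ e') := by
    obtain ⟨a, b, c, rfl, h⟩ := hT.tri t' ht'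
    exact hull_inter_subset h (Finset.inter_subset_right.trans Finset.inter_subset_right) hsub'
      ⟨h2, hp'⟩
  refine hull_mono ?_ h3
  intro q hq
  simp only [Finset.mem_inter] at hq ⊢
  exact ⟨hq.1.1, hq.2⟩

/-- The midpoint of a side is on no other side. -/
theorem IsTri.midpoint_side (hT : IsTri T) {e' : Finset Pt} {x y : Pt} (hxy : x ≠ y)
    (he : ({x, y} : Finset Pt) ∈ sides T) (he' : e' ∈ sides T)
    (hm : (1 / 2 : ℝ) • x + (1 / 2 : ℝ) • y ∈ hull e') : e' = {x, y} := by
  have hme : (1 / 2 : ℝ) • x + (1 / 2 : ℝ) • y ∈ hull {x, y} := by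
    rw [hull_pair]
    exact ⟨1 / 2, 1 / 2, by norm_num, by norm_num, by norm_num, rfl⟩
  have h1 := hT.sides_meet he he' ⟨hme, hm⟩
  obtain ⟨hc, -⟩ := mem_sides.1 he'
  -- both end points are in the intersection
  have hmx : ∀ u w : Pt, u ≠ w → (1 / 2 : ℝ) • u + (1 / 2 : ℝ) • w ≠ w := by
    intro u w huw h
    apply huw
    have h2 : (1 / 2 : ℝ) • u = (1 / 2 : ℝ) • w := by
      have h3 : (1 / 2 : ℝ) • w + (1 / 2 : ℝ) • w = w := by
        rw [← add_smul]; norm_num
      nth_rewrite 2 [← h3] at h
      exact add_right_cancel h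
    exact smul_right_injective Pt (by norm_num : (1 / 2 : ℝ) ≠ 0) h2
  have hx : x ∈ e' := by
    by_contra hx
    have hsub : ({x, y} : Finset Pt) ∩ e' ⊆ {y} := by
      intro q hq
      simp only [Finset.mem_inter, Finset.mem_insert, Finset.mem_singleton] at hq ⊢
      rcases hq.1 with h2 | h2
      · exact absurd (h2 ▸ hq.2) hx
      · exact h2
    have h3 := hull_mono hsub h1
    rw [hull_singleton, Set.mem_singleton_iff] at h3
    exact hmx x y hxy h3
  have hy : y ∈ e' := by
    by_contra hy
    have hsub : ({x, y} : Finset Pt) ∩ e' ⊆ {x} := by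
      intro q hq
      simp only [Finset.mem_inter, Finset.mem_insert, Finset.mem_singleton] at hq ⊢
      rcases hq.1 with h2 | h2
      · exact h2
      · exact absurd (h2 ▸ hq.2) hy
    have h3 := hull_mono hsub h1
    rw [hull_singleton, Set.mem_singleton_iff, add_comm] at h3
    exact hmx y x hxy.symm h3
  symm
  apply Finset.eq_of_subset_of_card_le
  · intro q hq
    simp only [Finset.mem_insert, Finset.mem_singleton] at hq
    rcases hq with rfl | rfl <;> assumption
  · rw [hc, Finset.card_pair hxy]

theorem IsTri.subset_closure (hT : IsTri T) {t : Finset Pt} (ht : t ∈ T) :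
    hull t ⊆ closure (interior (hull t)) := by
  obtain ⟨a, b, c, rfl, h⟩ := hT.tri t ht
  exact hull3_subset_closure h

/-- Near every point of a triangle there are interior points of it. -/
theorem IsTri.exists_interior (hT : IsTri T) {t : Finset Pt} (ht : t ∈ T) {p : Pt}
    (hp : p ∈ hull t) {A : Set Pt} (hA : A ∈ nhds p) : ∃ q ∈ interior (hull t), q ∈ A := by
  have h1 := hT.subset_closure ht hp
  rw [mem_closure_iff_nhds] at h1
  obtain ⟨q, hq1, hq2⟩ := h1 A hA
  exact ⟨q, hq2, hq1⟩

end Pool.Agent.Helper69.AGF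

end
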