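import Pool.Agent.AG.GC.Local
import Pool.Agent.AG.GC.Faces
import Pool.Agent.Helper69.AGF.Rank
import Pool.Agent.Helper69.AGF.BigTri
import Pool.Agent.Helper85.AG.Constrained

/-!
# The triangles of a triangulation which lie in a polygon with holes
-/

set_option autoImplicit false

noncomputable section

namespace Pool.Agent.AG

open Topology
open Pool.Agent.Helper94.UR (ept)
open Pool.Agent.Helper69.AGF (det hull IsTri Part sides hull_pair subset_hull hull_mono mem_sides)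

theorem crs_eq_det (a b c : ℝ × ℝ) : crs a b c = det a b c := rfl

namespace PolygonWithHoles

variable (P : PolygonWithHoles)

/-- The edges as two element sets. -/
def edges : Finset (Finset (ℝ × ℝ)) :=
  haveI : ∀ c, NeZero (P.k c) := fun c => (P.simple c).neZero
  Finset.univ.biUnion fun c => Finset.univ.image fun i => {P.v c i, P.v c (i + 1)}

theorem mem_edges {e : Finset (ℝ × ℝ)} : e ∈ P.edges ↔ ∃ c i, e = {P.v c i, P.v c (i + 1)} := by
  simp only [edges, Finset.mem_biUnion, Finset.mem_univ, true_and, Finset.mem_image]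
  constructor
  · rintro ⟨c, i, h⟩
    exact ⟨c, i, h.symm⟩
  · rintro ⟨c, i, h⟩
    exact ⟨c, i, h.symm⟩

theorem edge_ne (c : Fin (P.h + 1)) (i : ZMod (P.k c)) : P.v c i ≠ P.v c (i + 1) :=
  (P.simple c).2.1 i

theorem mid_ne {u w : ℝ × ℝ} (huw : u ≠ w) : (1 / 2 : ℝ) • u + (1 / 2 : ℝ) • w ≠ w := by
  intro h
  apply huw
  have h2 : (1 / 2 : ℝ) • u = (1 / 2 : ℝ) • w := by
    have h3 : (1 / 2 : ℝ) • w + (1 / 2 : ℝ) • w = w := by
      rw [← add_smul]; norm_num
    nth_rewrite 2 [← h3] at h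
    exact add_right_cancel h
  exact smul_right_injective (ℝ × ℝ) (by norm_num : (1 / 2 : ℝ) ≠ 0) h2

/-- Different edges are different sets. -/
theorem edge_injective {c c' : Fin (P.h + 1)} {i : ZMod (P.k c)} {j : ZMod (P.k c')}
    (h : ({P.v c i, P.v c (i + 1)} : Finset (ℝ × ℝ)) = {P.v c' j, P.v c' (j + 1)}) :
    (⟨c, i⟩ : Σ c, ZMod (P.k c)) = ⟨c', j⟩ := by
  by_contra hne
  have hm : (1 / 2 : ℝ) • P.v c i + (1 / 2 : ℝ) • P.v c (i + 1) ∈
      segment ℝ (P.v c i) (P.v c (i + 1)) := ⟨1 / 2, 1 / 2, by norm_num, by norm_num, by norm_num,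
      rfl⟩
  have hm' : (1 / 2 : ℝ) • P.v c i + (1 / 2 : ℝ) • P.v c (i + 1) ∈
      segment ℝ (P.v c' j) (P.v c' (j + 1)) := by
    rw [← hull_pair, ← h, hull_pair]
    exact hm
  rcases (P.edges_meet hne hm hm').1 with h1 | h1
  · rw [add_comm] at h1
    exact mid_ne (P.edge_ne c i).symm h1
  · exact mid_ne (P.edge_ne c i) h1

theorem card_edges : P.edges.card = P.n := by
  have : ∀ c, NeZero (P.k c) := fun c => (P.simple c).neZero
  unfold edges
  rw [Finset.card_biUnion]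
  · unfold n
    refine Finset.sum_congr rfl fun c _ => ?_
    rw [Finset.card_image_of_injective, Finset.card_univ, ZMod.card]
    intro i j hij
    have h1 := P.edge_injective hij
    rw [Sigma.mk.injEq] at h1
    exact eq_of_heq h1.2
  · intro c _ c' _ hcc
    refine Finset.disjoint_left.2 fun e he he' => ?_
    rw [Finset.mem_image] at he he'
    obtain ⟨i, -, rfl⟩ := he
    obtain ⟨j, -, hj⟩ := he'
    have h1 := P.edge_injective hj
    rw [Sigma.mk.injEq] at h1
    exact hcc h1.1.symm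

theorem mem_curve_iff {p : ℝ × ℝ} : (∃ c, p ∈ curve (P.v c)) ↔ ∃ e ∈ P.edges, p ∈ hull e := by
  constructor
  · rintro ⟨c, i, hi⟩
    exact ⟨_, P.mem_edges.2 ⟨c, i, rfl⟩, by rw [hull_pair]; exact hi⟩
  · rintro ⟨e, he, hp⟩
    obtain ⟨c, i, rfl⟩ := P.mem_edges.1 he
    rw [hull_pair] at hp
    exact ⟨c, i, hp⟩

/-- A connected set which meets no edge is in the interior of the polygon or outside. -/
theorem const_on {S : Set (ℝ × ℝ)} (hS : IsPreconnected S)
    (hc : ∀ p ∈ S, ∀ e ∈ P.edges, p ∉ hull e) : S ⊆ interior P.carrier ∨ S ⊆ P.carrierᶜ := by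
  apply hS.subset_or_subset isOpen_interior P.isClosed_carrier.isOpen_compl
  · exact Set.disjoint_left.2 fun p hp hp' => hp' (interior_subset hp)
  · intro p hp
    by_cases h : p ∈ P.carrier
    · left
      rw [mem_interior_iff_mem_nhds]
      have h1 : ∀ c, p ∉ curve (P.v c) := by
        intro c hcc
        obtain ⟨e, he, hpe⟩ := P.mem_curve_iff.1 ⟨c, hcc⟩
        exact hc p hp e he hpe
      filter_upwards [P.off_curves h1] with q hq
      exact hq.2 h
    · exact Or.inr h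

open Classical in
/-- The triangles in the polygon. -/
def inner (T' : Finset (Finset (ℝ × ℝ))) : Finset (Finset (ℝ × ℝ)) :=
  T'.filter (fun t => hull t ⊆ P.carrier)

theorem mem_inner {T' : Finset (Finset (ℝ × ℝ))} {t : Finset (ℝ × ℝ)} :
    t ∈ P.inner T' ↔ t ∈ T' ∧ hull t ⊆ P.carrier := by
  classical
  unfold inner
  exact Finset.mem_filter

variable {P} {T' : Finset (Finset (ℝ × ℝ))}

/-- A triangle with one interior point in the polygon lies in the polygon. -/
theorem mem_inner_of_point (hT : IsTri T') (hE : P.edges ⊆ sides T') {t : Finset (ℝ × ℝ)}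
    (ht : t ∈ T') {p : ℝ × ℝ} (hp : p ∈ interior (hull t)) (hpc : p ∈ P.carrier) :
    t ∈ P.inner T' := by
  rw [mem_inner]
  refine ⟨ht, ?_⟩
  have hconn : IsPreconnected (interior (hull t)) := by
    exact (Pool.Agent.Helper69.AGF.convex_hull t).interior.isPreconnected
  rcases P.const_on hconn (fun q hq e he => hT.interior_side ht (hE he) hq) with h | h
  · have h1 : closure (interior (hull t)) ⊆ P.carrier :=
      closure_minimal (h.trans interior_subset) P.isClosed_carrier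
    exact (hT.subset_closure ht).trans h1
  · exact absurd hpc (h hp)

/-- Two triangles which contain a common point, not on any edge, have the same status. -/
theorem inner_iff_of_common (hT : IsTri T') (hE : P.edges ⊆ sides T') {t t' : Finset (ℝ × ℝ)}
    (ht' : t' ∈ T') {p : ℝ × ℝ} (hp : p ∈ hull t) (hp' : p ∈ hull t')
    (hc : ∀ e ∈ P.edges, p ∉ hull e) : t ∈ P.inner T' → t' ∈ P.inner T' := by
  intro h
  have hpc : p ∈ P.carrier := (P.mem_inner.1 h).2 hp
  have h1 : ∀ c, p ∉ curve (P.v c) := by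
    intro c hcc
    obtain ⟨e, he, hpe⟩ := P.mem_curve_iff.1 ⟨c, hcc⟩
    exact hc e he hpe
  obtain ⟨q, hq, hq'⟩ := hT.exists_interior ht' hp' (P.off_curves h1)
  have hq'' : q ∈ P.carrier ↔ p ∈ P.carrier := hq'
  exact mem_inner_of_point hT hE ht' hq (hq''.2 hpc)

theorem ept_half {k : ℕ} (v : ZMod k → ℝ × ℝ) (i : ZMod k) :
    ept v i (1 / 2) = (1 / 2 : ℝ) • v i + (1 / 2 : ℝ) • v (i + 1) := by
  unfold ept
  rw [smul_sub, add_sub, add_comm, add_sub_assoc, add_comm]
  congr 1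
  rw [show v i - (1 / 2 : ℝ) • v i = (1 : ℝ) • v i - (1 / 2 : ℝ) • v i by rw [one_smul],
    ← sub_smul]
  norm_num

/-- A triangle of the triangulation on a given side of an edge of the polygon. -/
theorem exists_left (hT : IsTri T') (hconv : Convex ℝ (Pool.Agent.Helper69.AGF.region T'))
    {x y : ℝ × ℝ} (hxy : x ≠ y) (hs : ({x, y} : Finset (ℝ × ℝ)) ∈ sides T')
    (hx : x ∈ interior (Pool.Agent.Helper69.AGF.region T')) :
    ∃ w, ({x, y, w} : Finset (ℝ × ℝ)) ∈ T' ∧ 0 < det x y w := by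
  -- a point on the left of the edge near `x`
  have hcont : Filter.Tendsto (fun s : ℝ => x + s • ((x.2 - y.2, y.1 - x.1) : ℝ × ℝ)) (𝓝 0)
      (𝓝 x) := by
    have h1 : Continuous (fun s : ℝ => x + s • ((x.2 - y.2, y.1 - x.1) : ℝ × ℝ)) := by fun_prop
    have h2 := h1.tendsto 0
    simpa using h2
  have hev := hcont (mem_interior_iff_mem_nhds.mp hx)
  rw [Filter.mem_map, Metric.mem_nhds_iff] at hev
  obtain ⟨d, hd, hball⟩ := hev
  have h1 : x + (d / 2) • ((x.2 - y.2, y.1 - x.1) : ℝ × ℝ) ∈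
      Pool.Agent.Helper69.AGF.region T' := by
    have := hball (show d / 2 ∈ Metric.ball (0 : ℝ) d by
      simp [abs_of_pos hd]; linarith)
    exact this
  refine hT.side_left hconv hs h1 ?_
  have h2 : det x y (x + (d / 2) • ((x.2 - y.2, y.1 - x.1) : ℝ × ℝ)) =
      d / 2 * ((y.1 - x.1) ^ 2 + (y.2 - x.2) ^ 2) := by
    simp only [det, Prod.fst_add, Prod.snd_add, Prod.smul_fst, Prod.smul_snd, smul_eq_mul]
    ring
  rw [h2]
  apply mul_pos (by linarith)
  rcases eq_or_ne (y.1 - x.1) 0 with h3 | h3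
  · rcases eq_or_ne (y.2 - x.2) 0 with h4 | h4
    · exact absurd (Prod.ext (by linarith) (by linarith)) hxy
    · have := sq_pos_of_ne_zero h4
      nlinarith [sq_nonneg (y.1 - x.1)]
  · have := sq_pos_of_ne_zero h3
    nlinarith [sq_nonneg (y.2 - x.2)]

/-- Near an inner point of a side there are interior points of the triangle on the correct side. -/
theorem near_mid {x y w : ℝ × ℝ} (hw : 0 < det x y w) {A : Set (ℝ × ℝ)}
    (hA : A ∈ 𝓝 ((1 / 2 : ℝ) • x + (1 / 2 : ℝ) • y)) :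
    ∃ q ∈ interior (hull {x, y, w}), q ∈ A ∧ 0 < det x y q := by
  have hm : (1 / 2 : ℝ) • x + (1 / 2 : ℝ) • y ∈ hull {x, y, w} := by
    rw [Pool.Agent.Helper69.AGF.mem_hull3_comb]
    exact ⟨1 / 2, 1 / 2, 0, by norm_num, by norm_num, le_refl _, by norm_num, by simp⟩
  have h1 := Pool.Agent.Helper69.AGF.hull3_subset_closure hw hm
  rw [mem_closure_iff_nhds] at h1
  obtain ⟨q, hq1, hq2⟩ := h1 A hA
  refine ⟨q, hq2, hq1, ?_⟩
  rw [Pool.Agent.Helper69.AGF.interior_hull3 hw] at hq2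
  exact hq2.1

/-- Of the two triangles at an edge exactly one is in the polygon. -/
theorem edge_one (hT : IsTri T') (hconv : Convex ℝ (Pool.Agent.Helper69.AGF.region T'))
    (hE : P.edges ⊆ sides T') (hin : P.carrier ⊆ interior (Pool.Agent.Helper69.AGF.region T'))
    {e : Finset (ℝ × ℝ)} (he : e ∈ P.edges) :
    ∃ t ∈ P.inner T', ∃ t' ∈ T', t' ∉ P.inner T' ∧ e ⊆ t ∧ e ⊆ t' := by
  obtain ⟨s, hs, hloc⟩ := P.exists_signs
  obtain ⟨c, i, rfl⟩ := P.mem_edges.1 he
  have hne := P.edge_ne c i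
  have hxc : P.v c i ∈ P.carrier :=
    P.curve_subset_carrier c ⟨i, left_mem_segment ℝ _ _⟩
  have hyc : P.v c (i + 1) ∈ P.carrier :=
    P.curve_subset_carrier c ⟨i, right_mem_segment ℝ _ _⟩
  obtain ⟨w, hw, hdw⟩ := exists_left hT hconv hne (hE he) (hin hxc)
  obtain ⟨w', hw', hdw'⟩ := exists_left hT hconv hne.symm
    (by rw [Finset.pair_comm]; exact hE he) (hin hyc)
  have hmid := hloc c i (1 / 2) (by norm_num) (by norm_num)
  rw [ept_half] at hmid
  have hmid' : ∀ᶠ q in 𝓝 ((1 / 2 : ℝ) • P.v c (i + 1) + (1 / 2 : ℝ) • P.v c i),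
      (q ∈ P.carrier ↔ 0 ≤ s c * crs (P.v c i) (P.v c (i + 1)) q) := by
    rw [add_comm ((1 / 2 : ℝ) • P.v c (i + 1))]
    exact hmid
  obtain ⟨q, hq, hqA, hqd⟩ := near_mid hdw hmid
  obtain ⟨q', hq', hqA', hqd'⟩ := near_mid hdw' hmid'
  have hqA1 : q ∈ P.carrier ↔ 0 ≤ s c * crs (P.v c i) (P.v c (i + 1)) q := hqA
  have hqA1' : q' ∈ P.carrier ↔ 0 ≤ s c * crs (P.v c i) (P.v c (i + 1)) q' := hqA'
  rw [crs_eq_det] at hqA1 hqA1'
  rw [Pool.Agent.Helper69.AGF.det_swap] at hqd'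
  have hsub : ({P.v c i, P.v c (i + 1)} : Finset (ℝ × ℝ)) ⊆ {P.v c i, P.v c (i + 1), w} := by
    intro r hr
    simp only [Finset.mem_insert, Finset.mem_singleton] at hr ⊢
    tauto
  have hsub' : ({P.v c i, P.v c (i + 1)} : Finset (ℝ × ℝ)) ⊆ {P.v c (i + 1), P.v c i, w'} := by
    intro r hr
    simp only [Finset.mem_insert, Finset.mem_singleton] at hr ⊢
    tauto
  rcases hs c with h1 | h1
  · rw [h1, one_mul] at hqA1 hqA1'
    refine ⟨_, mem_inner_of_point hT hE hw hq (hqA1.2 hqd.le), _, hw', ?_, hsub, hsub'⟩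
    intro hcon
    have h2 := (P.mem_inner.1 hcon).2 (interior_subset hq')
    have h3 := hqA1'.1 h2
    linarith
  · rw [h1, neg_mul, one_mul] at hqA1 hqA1'
    refine ⟨_, mem_inner_of_point hT hE hw' hq' (hqA1'.2 (by linarith)), _, hw, ?_, hsub', hsub⟩
    intro hcon
    have h2 := (P.mem_inner.1 hcon).2 (interior_subset hq)
    have h3 := hqA1.1 h2
    linarith

/-- Across a side which is not an edge the status does not change. -/
theorem other_side (hT : IsTri T') (hE : P.edges ⊆ sides T') {e : Finset (ℝ × ℝ)}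
    (he : e ∈ sides T') (hne : e ∉ P.edges) {t t' : Finset (ℝ × ℝ)} (ht' : t' ∈ T')
    (het : e ⊆ t) (het' : e ⊆ t') : t ∈ P.inner T' → t' ∈ P.inner T' := by
  obtain ⟨hcard, -⟩ := mem_sides.1 he
  obtain ⟨x, y, hxy, rfl⟩ := Finset.card_eq_two.1 hcard
  have hm : (1 / 2 : ℝ) • x + (1 / 2 : ℝ) • y ∈ hull {x, y} := by
    rw [hull_pair]
    exact ⟨1 / 2, 1 / 2, by norm_num, by norm_num, by norm_num, rfl⟩
  apply inner_iff_of_common hT hE ht' (hull_mono het hm) (hull_mono het' hm)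
  intro e' he' hme'
  have h1 := hT.midpoint_side hxy he (hE he') hme'
  exact hne (h1 ▸ he')

/-- The triangles in the polygon cover it. -/
theorem region_inner (hT : IsTri T') (hconv : Convex ℝ (Pool.Agent.Helper69.AGF.region T'))
    (hE : P.edges ⊆ sides T') (hin : P.carrier ⊆ interior (Pool.Agent.Helper69.AGF.region T')) :
    Pool.Agent.Helper69.AGF.region (P.inner T') = P.carrier := by
  apply Set.Subset.antisymm
  · intro p hp
    obtain ⟨t, ht, hpt⟩ := Pool.Agent.Helper69.AGF.mem_region.1 hp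
    exact (P.mem_inner.1 ht).2 hpt
  · intro p hp
    rw [Pool.Agent.Helper69.AGF.mem_region]
    by_cases hc : ∃ e ∈ P.edges, p ∈ hull e
    · obtain ⟨e, he, hpe⟩ := hc
      obtain ⟨t, ht, -, -, -, het, -⟩ := edge_one hT hconv hE hin he
      exact ⟨t, ht, hull_mono het hpe⟩
    · push Not at hc
      obtain ⟨t, ht, hpt⟩ := Pool.Agent.Helper69.AGF.mem_region.1 (interior_subset (hin hp))
      have h1 : ∀ c, p ∉ curve (P.v c) := by
        intro c hcc
        obtain ⟨e, he, hpe⟩ := P.mem_curve_iff.1 ⟨c, hcc⟩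
        exact hc e he hpe
      obtain ⟨q, hq, hq'⟩ := hT.exists_interior ht hpt (P.off_curves h1)
      have hq'' : q ∈ P.carrier ↔ p ∈ P.carrier := hq'
      exact ⟨t, mem_inner_of_point hT hE ht hq (hq''.2 hp), hpt⟩

theorem part_inner (hT : IsTri T') (hconv : Convex ℝ (Pool.Agent.Helper69.AGF.region T'))
    (hE : P.edges ⊆ sides T') (hin : P.carrier ⊆ interior (Pool.Agent.Helper69.AGF.region T')) :
    Part T' (P.inner T') P.edges where
  tri := hT
  conv := hconv
  sub := fun t ht => (P.mem_inner.1 ht).1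
  edge_side := hE
  edge_one := fun e he => edge_one hT hconv hE hin he
  other := fun e he hne t ht t' ht' het het' =>
    ⟨other_side hT hE he hne ht' het het', other_side hT hE he hne ht het' het⟩
  inner := by
    intro v hv
    obtain ⟨t, ht, hvt⟩ := Pool.Agent.Helper69.AGF.mem_verts.1 hv
    exact hin ((P.mem_inner.1 ht).2 (subset_hull hvt))

/-- A corner of a triangle is not in its interior. -/
theorem corner_notMem {A B C : ℝ × ℝ} (h : 0 < det A B C) {p : ℝ × ℝ}
    (hp : p ∈ ({A, B, C} : Finset (ℝ × ℝ))) : p ∉ interior (hull {A, B, C}) := by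
  rw [Pool.Agent.Helper69.AGF.interior_hull3 h]
  rintro ⟨h1, h2, h3⟩
  simp only [Finset.mem_insert, Finset.mem_singleton] at hp
  rcases hp with rfl | rfl | rfl
  · simp at h1
  · simp at h1
  · simp at h2

theorem verts_inner {A B C : ℝ × ℝ} (hABC : 0 < det A B C) (hT : IsTri T')
    (hconv : Convex ℝ (Pool.Agent.Helper69.AGF.region T')) (hE : P.edges ⊆ sides T')
    (hreg : Pool.Agent.Helper69.AGF.region T' = hull {A, B, C})
    (hV : ∀ p ∈ Pool.Agent.Helper69.AGF.verts T', p ∈ P.verts ∨ p ∈ ({A, B, C} : Finset (ℝ × ℝ)))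
    (hin : P.carrier ⊆ interior (Pool.Agent.Helper69.AGF.region T')) :
    Pool.Agent.Helper69.AGF.verts (P.inner T') = P.verts := by
  ext p
  rw [Pool.Agent.Helper69.AGF.mem_verts]
  constructor
  · rintro ⟨t, ht, hpt⟩
    obtain ⟨ht', hsub⟩ := P.mem_inner.1 ht
    rcases hV p (Pool.Agent.Helper69.AGF.mem_verts.2 ⟨t, ht', hpt⟩) with h | h
    · exact h
    · have h1 := hin (hsub (subset_hull hpt))
      rw [hreg] at h1
      exact absurd h1 (corner_notMem hABC h)
  · intro hp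
    obtain ⟨c, i, rfl⟩ := P.mem_verts.1 hp
    obtain ⟨t, ht, -, -, -, het, -⟩ := edge_one hT hconv hE hin (P.mem_edges.2 ⟨c, i, rfl⟩)
    exact ⟨t, ht, het (by simp)⟩

/-- Every vertex is connected to the first vertex of its boundary polygon. -/
theorem connected_edges (c : Fin (P.h + 1)) (i : ZMod (P.k c)) :
    Relation.ReflTransGen (fun x y : ℝ × ℝ => ({x, y} : Finset (ℝ × ℝ)) ∈ P.edges) (P.v c 0)
      (P.v c i) := by
  have : NeZero (P.k c) := (P.simple c).neZero
  have key : ∀ m : ℕ, Relation.ReflTransGen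
      (fun x y : ℝ × ℝ => ({x, y} : Finset (ℝ × ℝ)) ∈ P.edges) (P.v c 0)
      (P.v c (m : ZMod (P.k c))) := by
    intro m
    induction m with
    | zero =>
      rw [Nat.cast_zero]
    | succ m ih =>
      refine ih.tail ?_
      rw [P.mem_edges]
      exact ⟨c, (m : ZMod (P.k c)), by rw [Nat.cast_succ]⟩
  have h1 := key i.val
  rwa [ZMod.natCast_zmod_val] at h1

theorem edge_data {e : Finset (ℝ × ℝ)} (he : e ∈ P.edges) :
    ∃ a b, a ≠ b ∧ e = {a, b} ∧ a ∈ P.verts ∧ b ∈ P.verts ∧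
      ∀ p ∈ P.verts, p ∈ segment ℝ a b → p = a ∨ p = b := by
  obtain ⟨c, i, rfl⟩ := P.mem_edges.1 he
  refine ⟨_, _, P.edge_ne c i, rfl, P.mem_verts.2 ⟨c, i, rfl⟩, P.mem_verts.2 ⟨c, i + 1, rfl⟩, ?_⟩
  intro p hp hps
  obtain ⟨c', j, rfl⟩ := P.mem_verts.1 hp
  by_cases hne : (⟨c, i⟩ : Σ c, ZMod (P.k c)) = ⟨c', j⟩
  · left
    have h1 : ∀ x y : (Σ c, ZMod (P.k c)), x = y → P.v y.1 y.2 = P.v x.1 x.2 := by
      rintro x _ rfl
      rfl
    exact h1 _ _ hne
  · exact (P.edges_meet hne hps (left_mem_segment ℝ _ _)).1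

theorem edge_cross {a b c d : ℝ × ℝ} (hab : ({a, b} : Finset (ℝ × ℝ)) ∈ P.edges)
    (hcd : ({c, d} : Finset (ℝ × ℝ)) ∈ P.edges) (hne : ({a, b} : Finset (ℝ × ℝ)) ≠ {c, d})
    {p : ℝ × ℝ} (h1 : p ∈ segment ℝ a b) (h2 : p ∈ segment ℝ c d) :
    (p = a ∨ p = b) ∧ (p = c ∨ p = d) := by
  obtain ⟨c1, i, e1⟩ := P.mem_edges.1 hab
  obtain ⟨c2, j, e2⟩ := P.mem_edges.1 hcd
  rw [← hull_pair, e1, hull_pair] at h1
  rw [← hull_pair, e2, hull_pair] at h2
  have hne' : (⟨c1, i⟩ : Σ c, ZMod (P.k c)) ≠ ⟨c2, j⟩ := by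
    intro h
    apply hne
    rw [e1, e2]
    have h3 : ∀ x y : (Σ c, ZMod (P.k c)), x = y →
        ({P.v x.1 x.2, P.v x.1 (x.2 + 1)} : Finset (ℝ × ℝ)) = {P.v y.1 y.2, P.v y.1 (y.2 + 1)} := by
      rintro x _ rfl
      rfl
    exact h3 _ _ h
  obtain ⟨h3, h4⟩ := P.edges_meet hne' h1 h2
  have m1 : p ∈ ({P.v c1 i, P.v c1 (i + 1)} : Finset (ℝ × ℝ)) := by simpa using h3
  have m2 : p ∈ ({P.v c2 j, P.v c2 (j + 1)} : Finset (ℝ × ℝ)) := by simpa using h4
  rw [← e1] at m1
  rw [← e2] at m2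
  exact ⟨by simpa using m1, by simpa using m2⟩

/-- Every polygon with holes has a triangulation `T` whose vertices are the vertices of the
polygon; it is a part of a triangulation `T'` of a large triangle. -/
theorem exists_part (P : PolygonWithHoles) : ∃ T' T : Finset (Finset (ℝ × ℝ)),
    Part T' T P.edges ∧ Pool.Agent.Helper69.AGF.region T = P.carrier ∧
    Pool.Agent.Helper69.AGF.verts T = P.verts ∧
    (∀ v ∈ Pool.Agent.Helper69.AGF.verts T, ∃ c : Fin (P.h + 1),
      Relation.ReflTransGen (fun x y : ℝ × ℝ => ({x, y} : Finset (ℝ × ℝ)) ∈ P.edges)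
        (P.v c 0) v) ∧
    (∃ A B C, Pool.Agent.Helper69.AGF.region T' = hull {A, B, C} ∧ 0 < det A B C) := by
  obtain ⟨A, B, C, hABC, hS⟩ :=
    Pool.Agent.Helper69.AGF.exists_big_triangle' P.isCompact_carrier.isBounded
  have hVc : ∀ p ∈ P.verts, p ∈ P.carrier := by
    intro p hp
    obtain ⟨c, i, rfl⟩ := P.mem_verts.1 hp
    exact P.curve_subset_carrier c ⟨i, left_mem_segment ℝ _ _⟩
  obtain ⟨T', hT, hreg, hverts, hE⟩ := Pool.Agent.Helper69.AGF.exists_constrained hABC P.verts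
    (fun p hp => hS (hVc p hp)) P.edges (fun e he => edge_data he)
    (fun a b c d hab hcd hne p h1 h2 => edge_cross hab hcd hne h1 h2)
  have hconv : Convex ℝ (Pool.Agent.Helper69.AGF.region T') := by
    rw [hreg]
    exact Pool.Agent.Helper69.AGF.convex_hull _
  have hin : P.carrier ⊆ interior (Pool.Agent.Helper69.AGF.region T') := by
    rw [hreg]
    exact hS
  have hvi : Pool.Agent.Helper69.AGF.verts (P.inner T') = P.verts := by
    refine verts_inner hABC hT hconv hE hreg ?_ hin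
    intro p hp
    rw [hverts, Finset.mem_union] at hp
    exact hp
  refine ⟨T', P.inner T', part_inner hT hconv hE hin, region_inner hT hconv hE hin, hvi, ?_,
    ⟨A, B, C, hreg, hABC⟩⟩
  intro v hv
  rw [hvi] at hv
  obtain ⟨c, i, rfl⟩ := P.mem_verts.1 hv
  exact ⟨c, connected_edges c i⟩

/-- The count: `F + n + 2c ≤ 2 (n + h)`, where `c` is the number of components of the dual
graph. -/
theorem count_bound {T : Finset (Finset (ℝ × ℝ))} (hp : Part T' T P.edges)
    (hr : ∀ v ∈ Pool.Agent.Helper69.AGF.verts T, ∃ c : Fin (P.h + 1),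
      Relation.ReflTransGen (fun x y : ℝ × ℝ => ({x, y} : Finset (ℝ × ℝ)) ∈ P.edges)
        (P.v c 0) v) :
    T.card + P.n + 2 * Nat.card (Pool.Agent.Helper69.AGF.dual T).ConnectedComponent ≤
      2 * (P.n + P.h) := by
  have h1 := hp.euler P.h (fun c => P.v c 0) hr
  have h2 := hp.count
  rw [P.card_edges] at h1 h2
  omega

end PolygonWithHoles

end Pool.Agent.AG

end
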