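import Pool.Agent.AG.GC.Assemble
import Pool.Agent.AG.GC.Bridge

/-!
# Vertex guards from the main theorem on objects
-/

set_option autoImplicit false

noncomputable section

namespace AG

open scoped Classical
open Pool.Agent.Helper69 Pool.Agent.AG

/-- The bound `⌊(n+h)/3⌋` from the main theorem on connected objects. -/
theorem guards_of_main (P : PolygonWithHoles) (hmain : MainFor P.carrier) :
    ∃ G : Finset (ℝ × ℝ), (∀ g ∈ G, P.IsVertex g) ∧ G.card ≤ (P.n + P.h) / 3 ∧ P.Guards G := by
  obtain ⟨T', T, hP, hreg, hv, hr, -⟩ := P.exists_part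
  refine guards_of_part P hP hreg hv ?_ ?_ P.card_edges (hP.euler P.h (fun c => P.v c 0) hr) hmain
  · intro e he
    obtain ⟨c, i, rfl⟩ := P.mem_edges.1 he
    exact Finset.card_pair (P.edge_ne c i)
  · intro v hv'
    rw [hv] at hv'
    obtain ⟨c, i, rfl⟩ := P.mem_verts.1 hv'
    exact ⟨_, P.mem_edges.2 ⟨c, i, rfl⟩, by simp⟩

end AG

end
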