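import Pool.Agent.AG.Quad
import Pool.Agent.AG.Defs
import Pool.Agent.Helper69.AGF.Rank

/-!
# The object of a triangulation
-/

set_option autoImplicit false

noncomputable section

namespace AG

open scoped Classical
open Pool.Agent.Helper69

/-! ### closed triangles and hulls -/

theorem hull_eq_ctri {a b c : Pt} (h : Ccw a b c) : AGF.hull {a, b, c} = ctri a b c := by
  unfold AGF.hull
  apply Set.Subset.antisymm
  · apply convexHull_min _ (convex_ctri a b c)
    intro p hp
    simp only [Finset.coe_insert, Finset.coe_singleton, Set.mem_insert_iff,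
      Set.mem_singleton_iff] at hp
    rcases hp with rfl | rfl | rfl
    · exact mem_ctri_left h
    · rw [← ctri_rot]; exact mem_ctri_left h.rot
    · rw [← ctri_rot, ← ctri_rot]; exact mem_ctri_left h.rot'
  · intro p hp
    obtain ⟨h1, h2, h3⟩ := hp
    have hD : 0 < cr a b c := h
    have hs := cr_sum a b c p
    have hconv := convex_convexHull ℝ (({a, b, c} : Finset Pt) : Set Pt)
    have ha : a ∈ convexHull ℝ (({a, b, c} : Finset Pt) : Set Pt) :=
      subset_convexHull ℝ _ (by simp)
    have hb : b ∈ convexHull ℝ (({a, b, c} : Finset Pt) : Set Pt) :=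
      subset_convexHull ℝ _ (by simp)
    have hc : c ∈ convexHull ℝ (({a, b, c} : Finset Pt) : Set Pt) :=
      subset_convexHull ℝ _ (by simp)
    have key : p = (cr b c p / cr a b c) • a + (cr c a p / cr a b c) • b +
        (cr a b p / cr a b c) • c := by
      have hne : cr a b c ≠ 0 := hD.ne'
      ext
      · simp only [Prod.fst_add, Prod.smul_fst, smul_eq_mul]
        field_simp
        unfold cr
        ring
      · simp only [Prod.snd_add, Prod.smul_snd, smul_eq_mul]
        field_simp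
        unfold cr
        ring
    rw [key]
    have hw : cr b c p / cr a b c + cr c a p / cr a b c + cr a b p / cr a b c = 1 := by
      field_simp
      linarith
    have e1 : ∀ i ∈ (Finset.univ : Finset (Fin 3)), 0 ≤ (![cr b c p / cr a b c,
        cr c a p / cr a b c, cr a b p / cr a b c] : Fin 3 → ℝ) i := by
      intro i _
      fin_cases i
      · exact div_nonneg h2 hD.le
      · exact div_nonneg h3 hD.le
      · exact div_nonneg h1 hD.le
    have := hconv.sum_mem (t := Finset.univ) (w := ![cr b c p / cr a b c,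
        cr c a p / cr a b c, cr a b p / cr a b c]) (z := ![a, b, c]) e1
        (by rw [Fin.sum_univ_three]; exact hw) (by
          intro i _
          fin_cases i
          · exact ha
          · exact hb
          · exact hc)
    rw [Fin.sum_univ_three] at this
    exact this

/-- points of the hull of a subset of a line are on this line -/
theorem cr_eq_zero_of_mem_hull {x y p : Pt} {s : Finset Pt} (hs : ∀ q ∈ s, cr x y q = 0)
    (hp : p ∈ AGF.hull s) : cr x y p = 0 := by
  have hconv : Convex ℝ {q : Pt | cr x y q = 0} := by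
    intro q hq r hr a b _ _ hab
    simp only [Set.mem_setOf_eq] at *
    rw [cr_affine _ _ _ _ _ _ hab, hq, hr]
    ring
  exact convexHull_min (fun q hq => hs q hq) hconv hp

/-! ### numbering the vertices -/

/-- a counterclockwise numbering of the vertices of a triangle -/
def cor (t : Finset Pt) : Fin 3 → Pt :=
  if h : ∃ f : Fin 3 → Pt, t = {f 0, f 1, f 2} ∧ Ccw (f 0) (f 1) (f 2) then h.choose
  else fun _ => 0

/-- the corner points -/
def ptT (a : Sd (Finset Pt)) : Pt := cor a.1 a.2

variable {T : Finset (Finset Pt)}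

theorem cor_spec (hT : AGF.IsTri T) {t : Finset Pt} (ht : t ∈ T) :
    t = {cor t 0, cor t 1, cor t 2} ∧ Ccw (cor t 0) (cor t 1) (cor t 2) := by
  have h : ∃ f : Fin 3 → Pt, t = {f 0, f 1, f 2} ∧ Ccw (f 0) (f 1) (f 2) := by
    obtain ⟨a, b, c, h1, h2⟩ := hT.tri t ht
    exact ⟨![a, b, c], h1, h2⟩
  have e : cor t = h.choose := by
    unfold cor
    rw [dif_pos h]
  rw [e]
  exact h.choose_spec

theorem cor_ccw (hT : AGF.IsTri T) {t : Finset Pt} (ht : t ∈ T) (i : Fin 3) :
    Ccw (cor t i) (cor t (i + 1)) (cor t (i + 2)) := by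
  have h := (cor_spec hT ht).2
  fin_cases i
  · exact h
  · exact h.rot
  · exact h.rot'

theorem cor_eq (hT : AGF.IsTri T) {t : Finset Pt} (ht : t ∈ T) (i : Fin 3) :
    t = {cor t i, cor t (i + 1), cor t (i + 2)} := by
  have h := (cor_spec hT ht).1
  fin_cases i
  · exact h
  · show t = {cor t 1, cor t 2, cor t 0}
    conv_lhs => rw [h]
    ext p; simp only [Finset.mem_insert, Finset.mem_singleton]; tauto
  · show t = {cor t 2, cor t 0, cor t 1}
    conv_lhs => rw [h]
    ext p; simp only [Finset.mem_insert, Finset.mem_singleton]; tauto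

theorem cor_mem (hT : AGF.IsTri T) {t : Finset Pt} (ht : t ∈ T) (i : Fin 3) : cor t i ∈ t := by
  have h := cor_eq hT ht i
  have h2 : cor t i ∈ ({cor t i, cor t (i + 1), cor t (i + 2)} : Finset Pt) := by simp
  rw [← h] at h2
  exact h2

theorem fin3_ne : ∀ i j : Fin 3, i ≠ j → j = i + 1 ∨ j = i + 2 := by decide

theorem fin3_ne' : ∀ i j : Fin 3, i ≠ j → j = i + 1 ∨ i = j + 1 := by decide

theorem fin3_eq : ∀ i j : Fin 3, i = j ∨ i = j + 1 → i + 1 = j ∨ i + 1 = j + 1 → i = j := by
  decide

theorem cor_inj (hT : AGF.IsTri T) {t : Finset Pt} (ht : t ∈ T) {i j : Fin 3}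
    (h : cor t i = cor t j) : i = j := by
  have h3 := cor_ccw hT ht i
  by_contra hne
  have hj : j = i + 1 ∨ j = i + 2 := fin3_ne i j hne
  rcases hj with rfl | rfl
  · exact h3.ne h
  · exact h3.ne' h

theorem exists_cor (hT : AGF.IsTri T) {t : Finset Pt} (ht : t ∈ T) {p : Pt} (hp : p ∈ t) :
    ∃ i, cor t i = p := by
  have h := (cor_spec hT ht).1
  rw [h] at hp
  simp only [Finset.mem_insert, Finset.mem_singleton] at hp
  rcases hp with h | h | h
  · exact ⟨0, h.symm⟩
  · exact ⟨1, h.symm⟩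
  · exact ⟨2, h.symm⟩

/-- a counterclockwise numbering is determined by its first point -/
theorem exists_cor_ccw (hT : AGF.IsTri T) {t : Finset Pt} (ht : t ∈ T) {p q r : Pt}
    (h : t = {p, q, r}) (hc : Ccw p q r) :
    ∃ j, cor t j = p ∧ cor t (j + 1) = q ∧ cor t (j + 2) = r := by
  obtain ⟨j, hj⟩ := exists_cor hT ht (p := p) (by rw [h]; simp)
  have h1 := cor_eq hT ht j
  have h3 := cor_ccw hT ht j
  rw [hj] at h1 h3
  have hq : q ∈ ({p, cor t (j + 1), cor t (j + 2)} : Finset Pt) := by
    rw [← h1, h]; simp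
  have hr : r ∈ ({p, cor t (j + 1), cor t (j + 2)} : Finset Pt) := by
    rw [← h1, h]; simp
  simp only [Finset.mem_insert, Finset.mem_singleton] at hq hr
  have hpq := hc.ne
  have hpr := hc.ne'
  have hqr := hc.ne''
  rcases hq with e | e | e
  · exact absurd e.symm hpq
  · rcases hr with e' | e' | e'
    · exact absurd e'.symm hpr
    · exact absurd (e.trans e'.symm) hqr
    · exact ⟨j, hj, e.symm, e'.symm⟩
  · rcases hr with e' | e' | e'
    · exact absurd e'.symm hpr
    · exfalso
      rw [← e, ← e'] at h3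
      unfold Ccw at h3 hc
      rw [cr_swap] at h3
      linarith
    · exact absurd (e.trans e'.symm) hqr

theorem hull_eq (hT : AGF.IsTri T) {t : Finset Pt} (ht : t ∈ T) (i : Fin 3) :
    AGF.hull t = ctri (cor t i) (cor t (i + 1)) (cor t (i + 2)) := by
  conv_lhs => rw [cor_eq hT ht i]
  exact hull_eq_ctri (cor_ccw hT ht i)

/-- open triangles of different names are disjoint -/
theorem otri_disjoint (hT : AGF.IsTri T) {t t' : Finset Pt} (ht : t ∈ T) (ht' : t' ∈ T)
    (hne : t ≠ t') (i j : Fin 3) :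
    Disjoint (otri (cor t i) (cor t (i + 1)) (cor t (i + 2)))
      (otri (cor t' j) (cor t' (j + 1)) (cor t' (j + 2))) := by
  rw [Set.disjoint_left]
  intro p hp hp'
  have h1 : p ∈ AGF.hull t := by
    rw [hull_eq hT ht i]; exact otri_subset_ctri _ _ _ hp
  have h2 : p ∈ AGF.hull t' := by
    rw [hull_eq hT ht' j]; exact otri_subset_ctri _ _ _ hp'
  have h3 := hT.glue t ht t' ht' ⟨h1, h2⟩
  -- some vertex of t is not in t'
  have h4 : ∃ k, cor t k ∉ t' := by
    by_contra hcon
    push Not at hcon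
    apply hne
    have hsub : t ⊆ t' := by
      intro q hq
      obtain ⟨k, hk⟩ := exists_cor hT ht hq
      rw [← hk]; exact hcon k
    have hc1 : t.card = 3 := by
      conv_lhs => rw [cor_eq hT ht 0]
      have h5 := cor_ccw hT ht 0
      rw [Finset.card_insert_of_notMem, Finset.card_pair h5.ne'']
      simp only [Finset.mem_insert, Finset.mem_singleton, not_or]
      exact ⟨h5.ne, h5.ne'⟩
    have hc2 : t'.card = 3 := by
      conv_lhs => rw [cor_eq hT ht' 0]
      have h5 := cor_ccw hT ht' 0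
      rw [Finset.card_insert_of_notMem, Finset.card_pair h5.ne'']
      simp only [Finset.mem_insert, Finset.mem_singleton, not_or]
      exact ⟨h5.ne, h5.ne'⟩
    exact Finset.eq_of_subset_of_card_le hsub (by rw [hc1, hc2])
  obtain ⟨k, hk⟩ := h4
  have h5 : ∀ q ∈ t ∩ t', cr (cor t (k + 1)) (cor t (k + 2)) q = 0 := by
    intro q hq
    rw [Finset.mem_inter] at hq
    have h6 := hq.1
    rw [cor_eq hT ht k] at h6
    simp only [Finset.mem_insert, Finset.mem_singleton] at h6
    rcases h6 with h6 | h6 | h6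
    · rw [h6] at hq; exact absurd hq.2 hk
    · rw [h6]; exact cr_self_left _ _
    · rw [h6]; exact cr_self_right _ _
  have h7 := cr_eq_zero_of_mem_hull h5 h3
  have h8 : p ∈ otri (cor t k) (cor t (k + 1)) (cor t (k + 2)) := by
    have e0 : otri (cor t 1) (cor t 2) (cor t 0) = otri (cor t 0) (cor t 1) (cor t 2) :=
      otri_rot _ _ _
    have e1 : otri (cor t 2) (cor t 0) (cor t 1) = otri (cor t 1) (cor t 2) (cor t 0) :=
      otri_rot _ _ _
    fin_cases i <;> fin_cases k <;>
      simp_all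
  linarith [h8.2.1]

/-! ### gluing -/

/-- the side `a` is glued to the side `b` -/
def Gl (T : Finset (Finset Pt)) (a b : Sd (Finset Pt)) : Prop :=
  a.1 ∈ T ∧ b.1 ∈ T ∧ a.1 ≠ b.1 ∧ ptT b = ptT (rot a) ∧ ptT (rot b) = ptT a

theorem Gl.symm {a b : Sd (Finset Pt)} (h : Gl T a b) : Gl T b a :=
  ⟨h.2.1, h.1, h.2.2.1.symm, h.2.2.2.2.symm, h.2.2.2.1.symm⟩

theorem Gl.unique (hT : AGF.IsTri T) {a b b' : Sd (Finset Pt)} (h : Gl T a b) (h' : Gl T a b') :
    b = b' := by
  have h1 : b.1 = b'.1 := by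
    by_contra hne
    have hd := otri_disjoint hT h.2.1 h'.2.1 hne b.2 b'.2
    have e1 : cor b'.1 b'.2 = cor b.1 b.2 := (h'.2.2.2.1.trans h.2.2.2.1.symm : ptT b' = ptT b)
    have e2 : cor b'.1 (b'.2 + 1) = cor b.1 (b.2 + 1) :=
      (h'.2.2.2.2.trans h.2.2.2.2.symm : ptT (rot b') = ptT (rot b))
    have c1 := cor_ccw hT h.2.1 b.2
    have c2 := cor_ccw hT h'.2.1 b'.2
    rw [e1, e2] at c2 hd
    obtain ⟨p, hp, hp'⟩ := otri_inter_same_side c1 c2
    exact Set.disjoint_left.1 hd hp hp'
  have h2 : cor b.1 b.2 = cor b.1 b'.2 := by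
    have : ptT b = ptT b' := h.2.2.2.1.trans h'.2.2.2.1.symm
    unfold ptT at this
    rw [this, h1]
  have h3 := cor_inj hT h.2.1 h2
  exact Prod.ext h1 h3

/-- the gluing map -/
def glue (T : Finset (Finset Pt)) (a : Sd (Finset Pt)) : Sd (Finset Pt) :=
  if h : ∃ b, Gl T a b then h.choose else a

theorem glue_of (hT : AGF.IsTri T) {a b : Sd (Finset Pt)} (h : Gl T a b) : glue T a = b := by
  have h' : ∃ b, Gl T a b := ⟨b, h⟩
  unfold glue
  rw [dif_pos h']
  exact Gl.unique hT h'.choose_spec h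

theorem gl_of_ne {a : Sd (Finset Pt)} (h : glue T a ≠ a) : Gl T a (glue T a) := by
  unfold glue at *
  split_ifs at * with h'
  · exact h'.choose_spec
  · exact absurd rfl h

theorem glue_ne_iff (hT : AGF.IsTri T) {a : Sd (Finset Pt)} : glue T a ≠ a ↔ ∃ b, Gl T a b := by
  constructor
  · intro h; exact ⟨_, gl_of_ne h⟩
  · rintro ⟨b, h⟩
    rw [glue_of hT h]
    intro e
    exact h.2.2.1 (by rw [e])

/-- The object of a triangulation: all pairs of triangles with a common side are glued, there are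
no ears. -/
def ofTri (hT : AGF.IsTri T) : Obj (Finset Pt) where
  F := T
  g := glue T
  E := ∅
  invol a := by
    by_cases h : glue T a = a
    · rw [h, h]
    · exact glue_of hT (gl_of_ne h).symm
  ne a h := (gl_of_ne h).2.2.1.symm
  memF a h := (gl_of_ne h).1
  earF a h := absurd h (Finset.notMem_empty a)
  earFree a h := absurd h (Finset.notMem_empty a)

variable (hT : AGF.IsTri T)

theorem ofTri_F : (ofTri hT).F = T := rfl

theorem ofTri_g : (ofTri hT).g = glue T := rfl

theorem ofTri_E : (ofTri hT).E = ∅ := rfl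

theorem mem_sides_ofTri {a : Sd (Finset Pt)} : a ∈ (ofTri hT).sides ↔ a.1 ∈ T := by
  unfold Obj.sides
  rw [Finset.mem_product]
  simp [ofTri_F]

include hT

theorem tri_ofTri {t : Finset Pt} (ht : t ∈ T) : tri ptT t = AGF.hull t := by
  rw [hull_eq hT ht 0]
  rfl

theorem mat_ofTri {a : Sd (Finset Pt)} (h : (ofTri hT).g a ≠ a) :
    ptT (rot ((ofTri hT).g a)) = ptT a :=
  (gl_of_ne (T := T) h).2.2.2.2

/-- the side as a set of two points -/
def eset (a : Sd (Finset Pt)) : Finset Pt := {ptT a, ptT (rot a)}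

theorem eset_sub {a : Sd (Finset Pt)} (ha : a.1 ∈ T) : eset a ⊆ a.1 := by
  intro p hp
  unfold eset at hp
  simp only [Finset.mem_insert, Finset.mem_singleton] at hp
  rcases hp with rfl | rfl
  · exact cor_mem hT ha _
  · exact cor_mem hT ha _

theorem eset_card {a : Sd (Finset Pt)} (ha : a.1 ∈ T) : (eset a).card = 2 := by
  unfold eset
  exact Finset.card_pair (cor_ccw hT ha a.2).ne

theorem eset_mem_sides {a : Sd (Finset Pt)} (ha : a.1 ∈ T) : eset a ∈ AGF.sides T :=
  AGF.mem_sides.2 ⟨eset_card hT ha, a.1, ha, eset_sub hT ha⟩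

theorem exists_eset {e t : Finset Pt} (he : e.card = 2) (ht : t ∈ T) (het : e ⊆ t) :
    ∃ i, eset (t, i) = e := by
  obtain ⟨x, y, hxy, rfl⟩ := Finset.card_eq_two.1 he
  obtain ⟨i, hi⟩ := exists_cor hT ht (het (by simp : x ∈ ({x, y} : Finset Pt)))
  obtain ⟨j, hj⟩ := exists_cor hT ht (het (by simp : y ∈ ({x, y} : Finset Pt)))
  have hij : i ≠ j := by
    rintro rfl
    exact hxy (hi.symm.trans hj)
  have : j = i + 1 ∨ i = j + 1 := fin3_ne' i j hij
  rcases this with h | h
  · refine ⟨i, ?_⟩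
    show ({cor t i, cor t (i + 1)} : Finset Pt) = {x, y}
    rw [← h, hi, hj]
  · refine ⟨j, ?_⟩
    show ({cor t j, cor t (j + 1)} : Finset Pt) = {x, y}
    rw [← h, hi, hj, Finset.pair_comm]

theorem eset_inj {t : Finset Pt} (ht : t ∈ T) {i j : Fin 3} (h : eset (t, i) = eset (t, j)) :
    i = j := by
  have h1 : cor t i ∈ eset (t, j) := by
    rw [← h]
    simp [eset, ptT]
  have h2 : cor t (i + 1) ∈ eset (t, j) := by
    rw [← h]
    simp [eset, ptT, rot]
  simp only [eset, ptT, rot, Finset.mem_insert, Finset.mem_singleton] at h1 h2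
  have h3 : i = j ∨ i = j + 1 := by
    rcases h1 with h | h
    · exact Or.inl (cor_inj hT ht h)
    · exact Or.inr (cor_inj hT ht h)
  have h4 : i + 1 = j ∨ i + 1 = j + 1 := by
    rcases h2 with h | h
    · exact Or.inl (cor_inj hT ht h)
    · exact Or.inr (cor_inj hT ht h)
  exact fin3_eq i j h3 h4

omit hT in
theorem eset_gl {a b : Sd (Finset Pt)} (h : Gl T a b) : eset b = eset a := by
  unfold eset
  rw [h.2.2.2.1, h.2.2.2.2, Finset.pair_comm]

/-- two different triangles of `T` with a common side are glued along this side -/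
theorem glue_of_common {a : Sd (Finset Pt)} (ha : a.1 ∈ T) {t : Finset Pt} (ht : t ∈ T)
    (hne : a.1 ≠ t) (h : eset a ⊆ t) : ∃ j, Gl T a (t, j) := by
  obtain ⟨i, hi⟩ := exists_eset hT (eset_card hT ha) ht h
  -- the orientation
  have c1 := cor_ccw hT ha a.2
  have c2 := cor_ccw hT ht i
  have he : ({cor t i, cor t (i + 1)} : Finset Pt) = {cor a.1 a.2, cor a.1 (a.2 + 1)} := hi
  have h1 : cor t i = cor a.1 a.2 ∨ cor t i = cor a.1 (a.2 + 1) := by
    have : cor t i ∈ ({cor a.1 a.2, cor a.1 (a.2 + 1)} : Finset Pt) := by rw [← he]; simp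
    simpa using this
  have h2 : cor t (i + 1) = cor a.1 a.2 ∨ cor t (i + 1) = cor a.1 (a.2 + 1) := by
    have : cor t (i + 1) ∈ ({cor a.1 a.2, cor a.1 (a.2 + 1)} : Finset Pt) := by rw [← he]; simp
    simpa using this
  rcases h1 with h1 | h1
  · rcases h2 with h2 | h2
    · exact absurd (h1.trans h2.symm) c2.ne
    · exfalso
      have hd := otri_disjoint hT ha ht hne a.2 i
      rw [h1, h2] at c2 hd
      obtain ⟨p, hp, hp'⟩ := otri_inter_same_side c1 c2
      exact Set.disjoint_left.1 hd hp hp'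
  · rcases h2 with h2 | h2
    · exact ⟨i, ha, ht, hne, h1, h2⟩
    · exact absurd (h1.trans h2.symm) c2.ne

omit hT

variable {T' E : Finset (Finset Pt)}

/-- the unglued sides are the boundary edges -/
theorem unglued_iff (hP : AGF.Part T' T E) {a : Sd (Finset Pt)} (ha : a.1 ∈ T) :
    glue T a = a ↔ eset a ∈ E := by
  have hT := hP.isTri
  constructor
  · intro h
    by_contra hE
    obtain ⟨t1, h1, t2, h2, hne, e1, e2, -⟩ :=
      hP.two_tri (AGF.mem_diags.2 ⟨eset_mem_sides hT ha, hE⟩)
    have : ∃ t ∈ T, a.1 ≠ t ∧ eset a ⊆ t := by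
      by_cases h3 : a.1 = t1
      · exact ⟨t2, h2, by rw [h3]; exact hne, e2⟩
      · exact ⟨t1, h1, h3, e1⟩
    obtain ⟨t, ht, hat, het⟩ := this
    obtain ⟨j, hj⟩ := glue_of_common hT ha ht hat het
    exact (glue_ne_iff hT).2 ⟨_, hj⟩ h
  · intro h
    by_contra hg
    have hgl := gl_of_ne hg
    obtain ⟨t1, h1, e1, hu⟩ := hP.one_tri h
    have u1 := hu _ ha (eset_sub hT ha)
    have u2 := hu _ hgl.2.1 (by rw [← eset_gl hgl]; exact eset_sub hT hgl.2.1)
    exact hgl.2.2.1 (u1.trans u2.symm)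

theorem card_vis (hP : AGF.Part T' T E) (hE2 : ∀ e ∈ E, e.card = 2) :
    (ofTri hP.isTri).vis.card = E.card := by
  have hT := hP.isTri
  refine Finset.card_bij (fun a _ => eset a) ?_ ?_ ?_
  · intro a ha
    unfold Obj.vis at ha
    rw [Finset.mem_filter, mem_sides_ofTri] at ha
    exact (unglued_iff hP ha.1).1 ha.2
  · intro a ha b hb hab
    unfold Obj.vis at ha hb
    rw [Finset.mem_filter, mem_sides_ofTri] at ha hb
    have h1 := (unglued_iff hP ha.1).1 ha.2
    obtain ⟨t1, -, -, hu⟩ := hP.one_tri h1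
    have u1 := hu _ ha.1 (eset_sub hT ha.1)
    have u2 := hu _ hb.1 (by rw [show eset a = eset b from hab]; exact eset_sub hT hb.1)
    have h2 : a.1 = b.1 := u1.trans u2.symm
    obtain ⟨t, i⟩ := a
    obtain ⟨t', j⟩ := b
    simp only at h2
    subst h2
    rw [eset_inj hT ha.1 hab]
  · intro e he
    obtain ⟨t1, h1, e1, -⟩ := hP.one_tri he
    obtain ⟨i, hi⟩ := exists_eset hT (hE2 e he) h1 e1
    refine ⟨(t1, i), ?_, hi⟩
    unfold Obj.vis
    rw [Finset.mem_filter, mem_sides_ofTri]
    refine ⟨h1, (unglued_iff hP h1).2 ?_⟩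
    rw [hi]
    exact he

end AG

end
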