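import Pool.Agent.AG.Plane

/-!
# The angles of disjoint triangles at a point
-/

set_option autoImplicit false

noncomputable section

namespace AG

open MeasureTheory Real

/-- the unit vector with the argument `θ` -/
def dir (θ : ℝ) : Pt := (Real.cos θ, Real.sin θ)

/-- the directions from `p` into the triangle `p b c` -/
def arc (p b c : Pt) : Set ℝ :=
  {θ | θ ∈ Set.Ioc (-π) π ∧ 0 < cr p b (p + dir θ) ∧ 0 < cr p (p + dir θ) c}

theorem measurableSet_arc (p b c : Pt) : MeasurableSet (arc p b c) := by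
  have h1 : Continuous fun θ : ℝ => cr p b (p + dir θ) := by
    unfold cr dir
    simp only [Prod.fst_add, Prod.snd_add]
    fun_prop
  have h2 : Continuous fun θ : ℝ => cr p (p + dir θ) c := by
    unfold cr dir
    simp only [Prod.fst_add, Prod.snd_add]
    fun_prop
  have e : arc p b c = Set.Ioc (-π) π ∩ ({θ | 0 < cr p b (p + dir θ)} ∩
      {θ | 0 < cr p (p + dir θ) c}) := rfl
  rw [e]
  exact measurableSet_Ioc.inter ((isOpen_lt continuous_const h1).measurableSet.inter
    (isOpen_lt continuous_const h2).measurableSet)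

theorem cr_scale (p b d : Pt) (ε : ℝ) : cr p b (p + ε • d) = ε * cr p b (p + d) := by
  unfold cr
  simp only [Prod.fst_add, Prod.snd_add, Prod.smul_fst, Prod.smul_snd, smul_eq_mul]
  ring

theorem cr_scale' (p c d : Pt) (ε : ℝ) : cr p (p + ε • d) c = ε * cr p (p + d) c := by
  unfold cr
  simp only [Prod.fst_add, Prod.snd_add, Prod.smul_fst, Prod.smul_snd, smul_eq_mul]
  ring

theorem eventually_mem_otri {p b c : Pt} (h : Ccw p b c) {d : Pt} (h1 : 0 < cr p b (p + d))
    (h2 : 0 < cr p (p + d) c) : ∀ᶠ ε : ℝ in nhdsWithin 0 (Set.Ioi 0), p + ε • d ∈ otri p b c := by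
  have hc : Continuous fun ε : ℝ => cr b c (p + ε • d) := by
    unfold cr
    simp only [Prod.fst_add, Prod.snd_add, Prod.smul_fst, Prod.smul_snd, smul_eq_mul]
    fun_prop
  have h0 : 0 < cr b c (p + (0 : ℝ) • d) := by
    rw [zero_smul, add_zero, cr_rot]
    exact h
  have hev : ∀ᶠ ε : ℝ in nhds 0, 0 < cr b c (p + ε • d) :=
    hc.continuousAt.eventually (isOpen_Ioi.mem_nhds h0)
  filter_upwards [nhdsWithin_le_nhds hev, self_mem_nhdsWithin] with ε h3 h4
  have h4' : 0 < ε := h4
  refine ⟨?_, h3, ?_⟩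
  · rw [cr_scale]; exact mul_pos h4' h1
  · rw [← cr_rot c p, cr_scale']; exact mul_pos h4' h2

theorem arc_disjoint {p b c b' c' : Pt} (h : Ccw p b c) (h' : Ccw p b' c')
    (hd : Disjoint (otri p b c) (otri p b' c')) : Disjoint (arc p b c) (arc p b' c') := by
  rw [Set.disjoint_left]
  rintro θ ⟨-, h1, h2⟩ ⟨-, h3, h4⟩
  obtain ⟨ε, h5, h6⟩ := ((eventually_mem_otri h h1 h2).and (eventually_mem_otri h' h3 h4)).exists
  exact Set.disjoint_left.1 hd h5 h6

theorem norm_mul_sin {z : ℂ} (θ : ℝ) :
    z.re * Real.sin θ - z.im * Real.cos θ = ‖z‖ * Real.sin (θ - Complex.arg z) := by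
  rw [Real.sin_sub]
  have h1 : ‖z‖ * Real.cos (Complex.arg z) = z.re := Complex.norm_mul_cos_arg z
  have h2 : ‖z‖ * Real.sin (Complex.arg z) = z.im := Complex.norm_mul_sin_arg z
  rw [← h1, ← h2]
  ring

theorem mem_arc_iff {p b c : Pt} (h : Ccw p b c) {θ : ℝ} : θ ∈ arc p b c ↔
    θ ∈ Set.Ioc (-π) π ∧ 0 < Real.sin (θ - Complex.arg (toC b - toC p)) ∧
      0 < Real.sin (Complex.arg (toC b - toC p) + ang p b c - θ) := by
  have hb : toC b - toC p ≠ 0 := sub_toC_ne h.ne.symm
  have hc : toC c - toC p ≠ 0 := sub_toC_ne h.ne'.symm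
  have e1 : cr p b (p + dir θ) =
      ‖toC b - toC p‖ * Real.sin (θ - Complex.arg (toC b - toC p)) := by
    rw [← norm_mul_sin]
    unfold cr dir
    simp only [Prod.fst_add, Prod.snd_add, Complex.sub_re, Complex.sub_im, toC_re, toC_im]
    ring
  have e2 : cr p (p + dir θ) c =
      ‖toC c - toC p‖ * Real.sin (Complex.arg (toC b - toC p) + ang p b c - θ) := by
    have e3 : cr p (p + dir θ) c = -(‖toC c - toC p‖ *
        Real.sin (θ - Complex.arg (toC c - toC p))) := by
      rw [← norm_mul_sin]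
      unfold cr dir
      simp only [Prod.fst_add, Prod.snd_add, Complex.sub_re, Complex.sub_im, toC_re, toC_im]
      ring
    obtain ⟨k, hk⟩ := ang_coe_mul hb (div_ne_zero hc hb)
    rw [mul_div_cancel₀ _ hb] at hk
    have e4 : Complex.arg (toC b - toC p) + ang p b c - θ =
        -(θ - Complex.arg (toC c - toC p)) - k * (2 * π) := by
      unfold ang
      linarith
    rw [e3, e4, Real.sin_sub_int_mul_two_pi, Real.sin_neg]
    ring
  unfold arc
  rw [Set.mem_setOf_eq, e1, e2]
  have n1 : 0 < ‖toC b - toC p‖ := norm_pos_iff.2 hb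
  have n2 : 0 < ‖toC c - toC p‖ := norm_pos_iff.2 hc
  rw [mul_pos_iff_of_pos_left n1, mul_pos_iff_of_pos_left n2]

theorem volume_arc {p b c : Pt} (h : Ccw p b c) :
    ENNReal.ofReal (ang p b c) ≤ volume (arc p b c) := by
  set β := Complex.arg (toC b - toC p) with hβ
  have b1 : -π < β := Complex.neg_pi_lt_arg _
  have b2 : β ≤ π := Complex.arg_le_pi _
  have d1 := ang_pos h
  have d2 := ang_lt_pi h
  set δ := ang p b c with hδ
  by_cases hcase : β + δ ≤ π
  · have hsub : Set.Ioo β (β + δ) ⊆ arc p b c := by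
      rintro θ ⟨h1, h2⟩
      rw [mem_arc_iff h]
      refine ⟨⟨by linarith, by linarith⟩, ?_, ?_⟩
      · exact Real.sin_pos_of_pos_of_lt_pi (by linarith) (by linarith)
      · exact Real.sin_pos_of_pos_of_lt_pi (by linarith) (by linarith)
    calc ENNReal.ofReal δ = volume (Set.Ioo β (β + δ)) := by
          rw [Real.volume_Ioo]; congr 1; ring
      _ ≤ _ := measure_mono hsub
  · rw [not_le] at hcase
    have hsub : Set.Ioc β π ∪ Set.Ioo (-π) (β + δ - 2 * π) ⊆ arc p b c := by
      rintro θ (⟨h1, h2⟩ | ⟨h1, h2⟩)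
      · rw [mem_arc_iff h]
        refine ⟨⟨by linarith, by linarith⟩, ?_, ?_⟩
        · rcases lt_or_ge (θ - β) π with h3 | h3
          · exact Real.sin_pos_of_pos_of_lt_pi (by linarith) h3
          · exfalso
            -- then β ≤ 0 and β + δ ≤ π
            linarith
        · exact Real.sin_pos_of_pos_of_lt_pi (by linarith) (by linarith)
      · rw [mem_arc_iff h]
        refine ⟨⟨by linarith, by linarith⟩, ?_, ?_⟩
        · have : θ - β = (θ - β + 2 * π) - 2 * π := by ring
          rw [← hβ, this, Real.sin_sub_two_pi]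
          exact Real.sin_pos_of_pos_of_lt_pi (by linarith) (by linarith)
        · have : β + δ - θ = (β + δ - θ - 2 * π) + 2 * π := by ring
          rw [← hβ, ← hδ, this, Real.sin_add_two_pi]
          exact Real.sin_pos_of_pos_of_lt_pi (by linarith) (by linarith)
    have hdis : Disjoint (Set.Ioc β π) (Set.Ioo (-π) (β + δ - 2 * π)) := by
      rw [Set.disjoint_left]
      rintro θ ⟨h1, h2⟩ ⟨h3, h4⟩
      linarith
    calc ENNReal.ofReal δ = ENNReal.ofReal (π - β) + ENNReal.ofReal (β + δ - 2 * π - -π) := by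
          rw [← ENNReal.ofReal_add (by linarith) (by linarith)]
          congr 1
          ring
      _ = volume (Set.Ioc β π ∪ Set.Ioo (-π) (β + δ - 2 * π)) := by
          rw [measure_union hdis measurableSet_Ioo, Real.volume_Ioc, Real.volume_Ioo]
      _ ≤ _ := measure_mono hsub

/-- The sum of the angles of disjoint triangles at a common vertex is at most `2 π`. -/
theorem sum_ang_le {ι : Type*} (s : Finset ι) (p : Pt) (b c : ι → Pt)
    (h : ∀ i ∈ s, Ccw p (b i) (c i))
    (hd : ∀ i ∈ s, ∀ j ∈ s, i ≠ j → Disjoint (otri p (b i) (c i)) (otri p (b j) (c j))) :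
    ∑ i ∈ s, ang p (b i) (c i) ≤ 2 * π := by
  have h1 : ∑ i ∈ s, ENNReal.ofReal (ang p (b i) (c i)) ≤ ENNReal.ofReal (2 * π) := by
    calc ∑ i ∈ s, ENNReal.ofReal (ang p (b i) (c i))
        ≤ ∑ i ∈ s, volume (arc p (b i) (c i)) := Finset.sum_le_sum fun i hi => volume_arc (h i hi)
      _ = volume (⋃ i ∈ s, arc p (b i) (c i)) := by
          rw [measure_biUnion_finset]
          · intro i hi j hj hij
            exact arc_disjoint (h i hi) (h j hj) (hd i hi j hj hij)
          · intro i _
            exact measurableSet_arc _ _ _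
      _ ≤ volume (Set.Ioc (-π) π) := by
          apply measure_mono
          intro θ hθ
          simp only [Set.mem_iUnion] at hθ
          obtain ⟨i, _, hi⟩ := hθ
          exact hi.1
      _ = ENNReal.ofReal (2 * π) := by
          rw [Real.volume_Ioc]
          congr 1
          ring
  rw [← ENNReal.ofReal_sum_of_nonneg (fun i hi => (ang_pos (h i hi)).le)] at h1
  exact (ENNReal.ofReal_le_ofReal_iff (by positivity)).1 h1

end AG

end
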