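import Pool.Agent.AG.GC.Region

/-!
# The local structure of a polygon with holes
-/

set_option autoImplicit false

namespace Pool.Agent.AG

open Topology
open Pool.Agent.Helper94.UR (ept)

namespace PolygonWithHoles

variable (P : PolygonWithHoles)

theorem mem_carrier {p : ℝ × ℝ} : p ∈ P.carrier ↔
    p ∈ region (P.v 0) ∧ ∀ c, c ≠ 0 → p ∉ interior (region (P.v c)) := by
  simp [carrier]

theorem isClosed_carrier : IsClosed P.carrier := by
  unfold carrier
  apply (isCompact_region (P.simple 0)).isClosed.sdiff
  exact isOpen_biUnion fun c _ => isOpen_interior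

theorem isCompact_carrier : IsCompact P.carrier :=
  (isCompact_region (P.simple 0)).of_isClosed_subset P.isClosed_carrier Set.sdiff_subset

/-- The boundary curves of different polygons are disjoint. -/
theorem curve_disjoint {c c' : Fin (P.h + 1)} (h : c ≠ c') :
    Disjoint (curve (P.v c)) (curve (P.v c')) := by
  have key : ∀ c, c ≠ 0 → Disjoint (curve (P.v 0)) (curve (P.v c)) := by
    intro c hc
    exact (curve_disjoint_interior (P.simple 0)).mono_right
      (curve_subset_region.trans (P.inside c hc))
  rcases eq_or_ne c 0 with rfl | hc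
  · exact key c' h.symm
  · rcases eq_or_ne c' 0 with rfl | hc'
    · exact (key c hc).symm
    · exact (P.disj c c' hc hc' h).mono curve_subset_region curve_subset_region

theorem curve_subset_carrier (c : Fin (P.h + 1)) : curve (P.v c) ⊆ P.carrier := by
  intro p hp
  rw [P.mem_carrier]
  constructor
  · rcases eq_or_ne c 0 with rfl | hc
    · exact curve_subset_region hp
    · exact interior_subset (P.inside c hc (curve_subset_region hp))
  · intro c' hc' hpi
    rcases eq_or_ne c c' with rfl | hcc
    · exact Set.disjoint_left.1 (curve_disjoint_interior (P.simple c)) hp hpi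
    · rcases eq_or_ne c 0 with rfl | hc
      · exact Set.disjoint_left.1 (curve_disjoint_interior (P.simple 0)) hp
          (P.inside c' hc' (interior_subset hpi))
      · exact Set.disjoint_left.1 (P.disj c c' hc hc' hcc) (curve_subset_region hp)
          (interior_subset hpi)

/-- The vertices as a finite set. -/
noncomputable def verts : Finset (ℝ × ℝ) :=
  haveI : ∀ c, NeZero (P.k c) := fun c => (P.simple c).neZero
  Finset.univ.biUnion fun c => Finset.univ.image (P.v c)

theorem mem_verts {p : ℝ × ℝ} : p ∈ P.verts ↔ ∃ c i, P.v c i = p := by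
  simp [verts]

theorem card_verts : P.verts.card = P.n := by
  have : ∀ c, NeZero (P.k c) := fun c => (P.simple c).neZero
  unfold verts
  rw [Finset.card_biUnion]
  · unfold n
    refine Finset.sum_congr rfl fun c _ => ?_
    rw [Finset.card_image_of_injective _ (P.simple c).injective, Finset.card_univ, ZMod.card]
  · intro c _ c' _ hcc
    refine Finset.disjoint_left.2 fun p hp hp' => ?_
    rw [Finset.mem_image] at hp hp'
    obtain ⟨i, -, rfl⟩ := hp
    obtain ⟨j, -, hj⟩ := hp'
    refine Set.disjoint_left.1 (P.curve_disjoint hcc) ⟨i, left_mem_segment _ _ _⟩ ⟨j, ?_⟩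
    rw [← hj]
    exact left_mem_segment _ _ _

/-- Two different edges have at most a common end point. -/
theorem edges_meet {c c' : Fin (P.h + 1)} {i : ZMod (P.k c)} {j : ZMod (P.k c')}
    (hne : (⟨c, i⟩ : Σ c, ZMod (P.k c)) ≠ ⟨c', j⟩) {x : ℝ × ℝ}
    (hx : x ∈ segment ℝ (P.v c i) (P.v c (i + 1)))
    (hx' : x ∈ segment ℝ (P.v c' j) (P.v c' (j + 1))) :
    (x = P.v c i ∨ x = P.v c (i + 1)) ∧ (x = P.v c' j ∨ x = P.v c' (j + 1)) := by
  rcases eq_or_ne c c' with rfl | hcc
  · have hij : i ≠ j := fun h => hne (by rw [h])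
    rcases (P.simple c).2.2 i j hij x hx hx' with ⟨h1, h2⟩ | ⟨h1, h2⟩
    · rw [← h1]
      exact ⟨Or.inr h2, Or.inl h2⟩
    · rw [← h1]
      exact ⟨Or.inl h2, Or.inr h2⟩
  · exact absurd ⟨j, hx'⟩ (Set.disjoint_left.1 (P.curve_disjoint hcc) ⟨i, hx⟩)

/-- Off the boundary curves membership is locally constant. -/
theorem off_curves {p : ℝ × ℝ} (hp : ∀ c, p ∉ curve (P.v c)) :
    ∀ᶠ q in 𝓝 p, (q ∈ P.carrier ↔ p ∈ P.carrier) := by
  have h1 : ∀ c, ∀ᶠ q in 𝓝 p, ((q ∈ region (P.v c) ↔ p ∈ region (P.v c)) ∧
      (q ∈ interior (region (P.v c)) ↔ p ∈ interior (region (P.v c)))) := by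
    intro c
    by_cases h : p ∈ region (P.v c)
    · have hn := region_mem_nhds (P.simple c) h (hp c)
      have hi : interior (region (P.v c)) ∈ 𝓝 p := interior_mem_nhds.2 hn
      filter_upwards [hn, hi] with q hq hq'
      exact ⟨iff_of_true hq h, iff_of_true hq' (mem_of_mem_nhds hi)⟩
    · have hc : (region (P.v c))ᶜ ∈ 𝓝 p :=
        (isCompact_region (P.simple c)).isClosed.isOpen_compl.mem_nhds h
      filter_upwards [hc] with q hq
      exact ⟨iff_of_false hq h, iff_of_false (fun h' => hq (interior_subset h'))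
        (fun h' => h (interior_subset h'))⟩
  have h2 := Filter.eventually_all.2 h1
  filter_upwards [h2] with q hq
  rw [P.mem_carrier, P.mem_carrier, (hq 0).1]
  refine and_congr_right fun _ => forall_congr' fun c => ?_
  rw [(hq c).2]

/-- Near an inner point of an edge the polygon with holes is a closed half plane; the side depends
only on the polygon and not on the edge. -/
theorem exists_signs : ∃ s : Fin (P.h + 1) → ℝ, (∀ c, s c = 1 ∨ s c = -1) ∧
    ∀ (c : Fin (P.h + 1)) (i : ZMod (P.k c)) (t : ℝ), 0 < t → t < 1 →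
      ∀ᶠ q in 𝓝 (ept (P.v c) i t),
        (q ∈ P.carrier ↔ 0 ≤ s c * crs (P.v c i) (P.v c (i + 1)) q) := by
  choose s hs hloc using fun c => exists_sign (P.simple c)
  refine ⟨fun c => if c = 0 then s c else -s c, fun c => ?_, fun c i t ht ht' => ?_⟩
  · by_cases h : c = 0
    · simp only [h, if_true]
      exact hs 0
    · simp only [h, if_false]
      rcases hs c with h1 | h1 <;> simp [h1]
  have hpc : ept (P.v c) i t ∈ curve (P.v c) := by
    refine ⟨i, 1 - t, t, by linarith, ht.le, by ring, ?_⟩
    unfold ept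
    rw [smul_sub, sub_smul, one_smul]
    abel
  -- the other regions
  have hoth : ∀ c', c' ≠ 0 → c' ≠ c → ∀ᶠ q in 𝓝 (ept (P.v c) i t), q ∉ region (P.v c') := by
    intro c' h1 h2
    refine (isCompact_region (P.simple c')).isClosed.isOpen_compl.mem_nhds ?_
    intro hmem
    rcases eq_or_ne c 0 with rfl | hc
    · exact Set.disjoint_left.1 (curve_disjoint_interior (P.simple 0)) hpc (P.inside c' h1 hmem)
    · exact Set.disjoint_left.1 (P.disj c c' hc h1 h2.symm) (curve_subset_region hpc) hmem
  have hall : ∀ᶠ q in 𝓝 (ept (P.v c) i t), ∀ c', c' ≠ 0 → c' ≠ c → q ∉ region (P.v c') := by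
    rw [Filter.eventually_all]
    intro c'
    by_cases h1 : c' ≠ 0
    · by_cases h2 : c' ≠ c
      · filter_upwards [hoth c' h1 h2] with q hq _ _ using hq
      · exact Filter.Eventually.of_forall fun q _ h => absurd h h2
    · exact Filter.Eventually.of_forall fun q h => absurd h h1
  rcases eq_or_ne c 0 with rfl | hc
  · simp only [if_true]
    filter_upwards [hall, hloc 0 i t ht ht'] with q h1 h2
    rw [P.mem_carrier, h2.1]
    exact ⟨fun h => h.1, fun h => ⟨h, fun c' hc' hi => h1 c' hc' hc' (interior_subset hi)⟩⟩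
  · simp only [hc, if_false]
    have hin : ∀ᶠ q in 𝓝 (ept (P.v c) i t), q ∈ region (P.v 0) :=
      Filter.mem_of_superset (isOpen_interior.mem_nhds (P.inside c hc (curve_subset_region hpc)))
        interior_subset
    filter_upwards [hall, hin, hloc c i t ht ht'] with q h1 h2 h3
    rw [P.mem_carrier]
    constructor
    · intro h
      have h4 := h.2 c hc
      rw [h3.2, not_lt] at h4
      linarith
    · intro h
      refine ⟨h2, fun c' hc' hi => ?_⟩
      rcases eq_or_ne c' c with rfl | hcc
      · rw [h3.2] at hi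
        linarith
      · exact h1 c' hc' hcc (interior_subset hi)

end PolygonWithHoles

end Pool.Agent.AG
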