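import Pool.Agent.AG.GC.Comps
import Pool.Agent.AG.GC.Local

/-!
# From the main theorem on objects to guards
-/

set_option autoImplicit false

noncomputable section

namespace AG

open scoped Classical
open Pool.Agent.Helper69 Pool.Agent.AG

/-- The statement of the main theorem on connected objects, for triangles named by themselves. -/
def MainFor (R : Set Pt) : Prop :=
  ∀ S : Obj (Finset Pt), S.Geo ptT → S.Conn → (∀ t ∈ S.F, tri ptT t ⊆ R) → P S ptT R ∅

theorem guards_of_part (P : PolygonWithHoles) {T' T E : Finset (Finset Pt)}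
    (hP : AGF.Part T' T E) (hreg : AGF.region T = P.carrier) (hv : AGF.verts T = P.verts)
    (hE2 : ∀ e ∈ E, e.card = 2) (hdeg : ∀ v ∈ AGF.verts T, ∃ e ∈ E, v ∈ e)
    (hcard : E.card = P.n)
    (heuler : 2 * T.card + Nat.card (AGF.dual T).ConnectedComponent ≤
      (AGF.diags T E).card + E.card + P.h)
    (hmain : MainFor P.carrier) :
    ∃ G : Finset (ℝ × ℝ), (∀ g ∈ G, P.IsVertex g) ∧ G.card ≤ (P.n + P.h) / 3 ∧ P.Guards G := by
  have hT := hP.isTri
  have : Fintype (AGF.dual T).ConnectedComponent := Fintype.ofFinite _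
  have hgeo := geo_ofTri hP hdeg
  have hpt : ∀ t ∈ T, AGF.hull t ⊆ P.carrier := by
    intro t ht x hx
    rw [← hreg, AGF.mem_region]
    exact ⟨t, ht, hx⟩
  have hsol : ∀ C : (AGF.dual T).ConnectedComponent, AG.P (piece hT C) ptT P.carrier ∅ := by
    intro C
    refine hmain _ (hgeo.mono' (piece_le hT C)) (piece_conn hT C) fun t ht => ?_
    rw [piece_F] at ht
    have h1 := (mem_compF.1 ht).1
    rw [tri_ofTri hT h1]
    exact hpt t h1
  choose Q hQ hQc using hsol
  refine ⟨(Finset.univ.biUnion Q).image ptT, ?_, ?_, ?_⟩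
  · intro g hg
    rw [Finset.mem_image] at hg
    obtain ⟨a, ha, rfl⟩ := hg
    rw [Finset.mem_biUnion] at ha
    obtain ⟨C, -, ha⟩ := ha
    have h1 := (hQ C).sub ha
    unfold Obj.sides at h1
    rw [Finset.mem_product, piece_F] at h1
    have h2 := (mem_compF.1 h1.1).1
    have h3 : ptT a ∈ P.verts := by
      rw [← hv, AGF.mem_verts]
      exact ⟨a.1, h2, cor_mem hT h2 a.2⟩
    exact P.mem_verts.1 h3
  · have h1 : ((Finset.univ.biUnion Q).image ptT).card ≤ ∑ C, (Q C).card :=
      Finset.card_image_le.trans Finset.card_biUnion_le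
    have h2 : 6 * ∑ C, (Q C).card ≤ ∑ C, (piece hT C).N2 0 := by
      rw [Finset.mul_sum]
      refine Finset.sum_le_sum fun C _ => ?_
      have := hQc C
      rwa [Finset.card_empty] at this
    rw [sum_N2 hT, card_vis hP hE2, hcard] at h2
    have h3 := hP.count
    rw [Nat.card_eq_fintype_card] at heuler
    rw [hcard] at h3 heuler
    rw [Nat.le_div_iff_mul_le (by norm_num)]
    omega
  · intro x hx
    rw [← hreg, AGF.mem_region] at hx
    obtain ⟨t, ht, hxt⟩ := hx
    set C := (AGF.dual T).connectedComponentMk ⟨t, ht⟩ with hC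
    have htC : t ∈ (piece hT C).F := by
      rw [piece_F]
      exact mem_compF.2 ⟨ht, rfl⟩
    obtain ⟨c, hc, hseg⟩ := (hQ C).cov t htC x (by rw [tri_ofTri hT ht]; exact hxt)
    exact ⟨ptT c, Finset.mem_image_of_mem _ (Finset.mem_biUnion.2 ⟨C, Finset.mem_univ _, hc⟩), hseg⟩

end AG

end
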