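import Pool.Agent.AG.GC.GeoOf

/-!
# The connected pieces of the object of a triangulation
-/

set_option autoImplicit false

noncomputable section

namespace AG

open scoped Classical
open Pool.Agent.Helper69

theorem Obj.Geo.mono' {I : Type} [DecidableEq I] {S S' : Obj I} {pt : Sd I → Pt}
    (h : S.Geo pt) (hle : S'.Le S) : S'.Geo pt where
  ccw0 t ht := h.ccw0 t (hle.F ht)
  mat a ha := by
    rcases hle.g a with e | e
    · rw [e]
      exact h.mat a (by rw [← e]; exact ha)
    · exact absurd e ha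
  disj0 t ht s hs hne := h.disj0 t (hle.F ht) s (hle.F hs) hne
  asum p := by
    refine lt_of_le_of_lt ?_ (h.asum p)
    refine Finset.sum_le_sum_of_subset_of_nonneg ?_ ?_
    · intro a ha
      rw [Finset.mem_filter] at ha ⊢
      refine ⟨?_, ha.2⟩
      unfold Obj.sides at *
      rw [Finset.mem_product] at *
      exact ⟨hle.F ha.1.1, ha.1.2⟩
    · intro a ha _
      rw [Finset.mem_filter] at ha
      have h1 : a.1 ∈ S.F := by
        have := ha.1
        unfold Obj.sides at this
        exact (Finset.mem_product.1 this).1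
      have h2 := h.ccw0 a.1 h1
      obtain ⟨t, i⟩ := a
      have h3 : Ccw (pt (t, i)) (pt (rot (t, i))) (pt (unrot (t, i))) := by
        fin_cases i
        · exact h2
        · exact h2.rot
        · exact h2.rot'
      exact (ang_pos h3).le

variable {T : Finset (Finset Pt)} (hT : AGF.IsTri T)

/-- the triangles of a component of the dual graph -/
def compF (C : (AGF.dual T).ConnectedComponent) : Finset (Finset Pt) :=
  T.filter fun t => ∃ h : t ∈ T, (AGF.dual T).connectedComponentMk ⟨t, h⟩ = C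

theorem mem_compF {C : (AGF.dual T).ConnectedComponent} {t : Finset Pt} :
    t ∈ compF C ↔ ∃ h : t ∈ T, (AGF.dual T).connectedComponentMk ⟨t, h⟩ = C := by
  unfold compF
  rw [Finset.mem_filter]
  exact ⟨fun h => h.2, fun h => ⟨h.1, h⟩⟩

/-- a piece -/
def piece (C : (AGF.dual T).ConnectedComponent) : Obj (Finset Pt) := (ofTri hT).keep (compF C)

theorem piece_F (C : (AGF.dual T).ConnectedComponent) : (piece hT C).F = compF C := by
  show T ∩ compF C = compF C
  rw [Finset.inter_eq_right]
  intro t ht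
  exact (mem_compF.1 ht).1

theorem piece_E (C : (AGF.dual T).ConnectedComponent) : (piece hT C).E = ∅ := by
  show (∅ : Finset (Sd (Finset Pt))).filter _ = ∅
  rw [Finset.filter_empty]

include hT in
theorem gl_comp {a b : Sd (Finset Pt)} (h : Gl T a b) {C : (AGF.dual T).ConnectedComponent}
    (ha : a.1 ∈ compF C) : b.1 ∈ compF C := by
  obtain ⟨h1, h2⟩ := mem_compF.1 ha
  refine mem_compF.2 ⟨h.2.1, ?_⟩
  rw [← h2, SimpleGraph.ConnectedComponent.eq]
  apply SimpleGraph.Adj.reachable
  refine ⟨h.2.1, h1, h.2.2.1.symm, eset a, ?_, ?_, ?_, trivial⟩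
  · have := (cor_ccw hT h1 a.2).ne
    exact eset_card hT h1
  · rw [← eset_gl h]
    exact eset_sub hT h.2.1
  · exact eset_sub hT h1

theorem piece_g {C : (AGF.dual T).ConnectedComponent} {a : Sd (Finset Pt)}
    (ha : a.1 ∈ compF C) : (piece hT C).g a = glue T a := by
  show (if a.1 ∈ compF C ∧ ((ofTri hT).g a).1 ∈ compF C then (ofTri hT).g a else a) = glue T a
  rw [ofTri_g]
  by_cases h : glue T a = a
  · rw [h]; simp
  · rw [if_pos ⟨ha, gl_comp hT (gl_of_ne h) ha⟩]

theorem piece_le (C : (AGF.dual T).ConnectedComponent) : (piece hT C).Le (ofTri hT) where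
  F := by
    rw [piece_F]
    intro t ht
    exact (mem_compF.1 ht).1
  g a := by
    show (if a.1 ∈ compF C ∧ ((ofTri hT).g a).1 ∈ compF C then (ofTri hT).g a else a) = _ ∨
      (if a.1 ∈ compF C ∧ ((ofTri hT).g a).1 ∈ compF C then (ofTri hT).g a else a) = _
    split_ifs
    · left; rfl
    · right; rfl

theorem piece_conn (C : (AGF.dual T).ConnectedComponent) : (piece hT C).Conn := by
  constructor
  · obtain ⟨⟨t, ht⟩, rfl⟩ := C.exists_rep
    rw [piece_F]
    exact ⟨t, mem_compF.2 ⟨ht, rfl⟩⟩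
  · intro X hX hXne hXF
    rw [piece_F] at hX hXF
    obtain ⟨t, ht⟩ := hXne
    obtain ⟨t', ht', hnt'⟩ : ∃ t' ∈ compF C, t' ∉ X := by
      by_contra hcon
      push Not at hcon
      exact hXF (Finset.Subset.antisymm hX hcon)
    obtain ⟨h1, h2⟩ := mem_compF.1 (hX ht)
    obtain ⟨h3, h4⟩ := mem_compF.1 ht'
    have hr : (AGF.dual T).Reachable ⟨t, h1⟩ ⟨t', h3⟩ := by
      rw [← SimpleGraph.ConnectedComponent.eq, h2, h4]
    -- an edge leaving X
    obtain ⟨w⟩ := hr
    have key : ∀ {u u' : {t // t ∈ T}} (_ : (AGF.dual T).Walk u u'), u.1 ∈ X → u'.1 ∉ X →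
        ∃ p q : {t // t ∈ T}, (AGF.dual T).Adj p q ∧ p.1 ∈ X ∧ q.1 ∉ X := by
      intro u u' w
      induction w with
      | nil => intro h h'; exact absurd h h'
      | @cons u v u' hadj _ ih =>
        intro h h'
        by_cases hv : v.1 ∈ X
        · exact ih hv h'
        · exact ⟨u, v, hadj, h, hv⟩
    obtain ⟨p, q, hadj, hp, hq⟩ := key w ht hnt'
    obtain ⟨-, -, hne, e, he, hep, heq, -⟩ := hadj
    obtain ⟨i, hi⟩ := exists_eset hT he p.2 hep
    have hcommon : eset (p.1, i) ⊆ q.1 := by rw [hi]; exact heq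
    obtain ⟨j, hj⟩ := glue_of_common hT (a := (p.1, i)) p.2 q.2 hne hcommon
    have hpC : p.1 ∈ compF C := hX hp
    have hg : (piece hT C).g (p.1, i) = (q.1, j) := by
      rw [piece_g hT (a := (p.1, i)) hpC]
      exact glue_of hT hj
    refine ⟨(p.1, i), ?_⟩
    unfold Obj.bd Obj.glued Obj.sides
    rw [Finset.mem_filter, Finset.mem_filter, Finset.mem_product, piece_F]
    refine ⟨⟨⟨hpC, Finset.mem_univ _⟩, ?_⟩, hp, ?_⟩
    · rw [hg]
      intro h
      exact hne (congrArg Prod.fst h).symm
    · rw [hg]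
      exact hq

theorem piece_vis (C : (AGF.dual T).ConnectedComponent) :
    (piece hT C).vis = (ofTri hT).vis.filter (fun a => a.1 ∈ compF C) := by
  ext a
  unfold Obj.vis Obj.sides
  rw [Finset.mem_filter, Finset.mem_filter, Finset.mem_filter, Finset.mem_product,
    Finset.mem_product, piece_F]
  constructor
  · rintro ⟨⟨h1, h2⟩, h3⟩
    refine ⟨⟨⟨(mem_compF.1 h1).1, h2⟩, ?_⟩, h1⟩
    rw [piece_g hT h1] at h3
    exact h3
  · rintro ⟨⟨⟨h1, h2⟩, h3⟩, h4⟩
    refine ⟨⟨h4, h2⟩, ?_⟩
    rw [piece_g hT h4]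
    exact h3

instance : Finite (AGF.dual T).ConnectedComponent :=
  Quot.finite _

theorem sum_card_fiber {α : Type*} (A : Finset α) (f : α → Finset Pt) (hf : ∀ a ∈ A, f a ∈ T)
    [Fintype (AGF.dual T).ConnectedComponent] :
    ∑ C : (AGF.dual T).ConnectedComponent, (A.filter (fun a => f a ∈ compF C)).card = A.card := by
  rw [← Finset.card_biUnion]
  · congr 1
    ext a
    simp only [Finset.mem_biUnion, Finset.mem_univ, true_and, Finset.mem_filter]
    constructor
    · rintro ⟨C, h, -⟩; exact h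
    · intro h
      exact ⟨(AGF.dual T).connectedComponentMk ⟨f a, hf a h⟩, h, mem_compF.2 ⟨hf a h, rfl⟩⟩
  · intro C _ C' _ hne
    refine Finset.disjoint_left.2 fun a h h' => hne ?_
    rw [Finset.mem_filter] at h h'
    obtain ⟨h1, h2⟩ := mem_compF.1 h.2
    obtain ⟨h3, h4⟩ := mem_compF.1 h'.2
    rw [← h2, ← h4]

/-- the sum of the numbers `N2` of the pieces -/
theorem sum_N2 [Fintype (AGF.dual T).ConnectedComponent] :
    ∑ C : (AGF.dual T).ConnectedComponent, (piece hT C).N2 0 =
      T.card + (ofTri hT).vis.card + 2 * Fintype.card (AGF.dual T).ConnectedComponent := by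
  have h1 : ∀ C : (AGF.dual T).ConnectedComponent, (piece hT C).N2 0 =
      (T.filter (fun t => id t ∈ compF C)).card +
        ((ofTri hT).vis.filter (fun a => a.1 ∈ compF C)).card + 2 := by
    intro C
    unfold Obj.N2
    rw [piece_E, piece_F, piece_vis]
    have : compF C = T.filter (fun t => id t ∈ compF C) := by
      ext t
      rw [Finset.mem_filter]
      exact ⟨fun h => ⟨(mem_compF.1 h).1, h⟩, fun h => h.2⟩
    rw [← this]
    simp
  simp_rw [h1]
  rw [Finset.sum_add_distrib, Finset.sum_add_distrib, sum_card_fiber T id (fun t ht => ht),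
    sum_card_fiber (ofTri hT).vis Prod.fst]
  · rw [Finset.sum_const, Finset.card_univ]
    ring
  · intro a ha
    unfold Obj.vis at ha
    rw [Finset.mem_filter, mem_sides_ofTri] at ha
    exact ha.1

end AG

end
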