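import Pool.Agent.AG.GC.Adapter
import Pool.Agent.AG.GC.AngSum
import Pool.Agent.AG.Blades

/-!
# The object of a triangulation is geometric
-/

set_option autoImplicit false

noncomputable section

namespace AG

open scoped Classical
open Pool.Agent.Helper69

variable {T T' E : Finset (Finset Pt)}

theorem otri_disjoint' (hT : AGF.IsTri T) {a b : Sd (Finset Pt)} (ha : a.1 ∈ T) (hb : b.1 ∈ T)
    (hne : a.1 ≠ b.1) : Disjoint (otri (ptT a) (ptT (rot a)) (ptT (unrot a)))
      (otri (ptT b) (ptT (rot b)) (ptT (unrot b))) :=
  otri_disjoint hT ha hb hne a.2 b.2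

theorem ccw_ptT (hT : AGF.IsTri T) {a : Sd (Finset Pt)} (ha : a.1 ∈ T) :
    Ccw (ptT a) (ptT (rot a)) (ptT (unrot a)) := cor_ccw hT ha a.2

theorem geo_ofTri (hP : AGF.Part T' T E) (hdeg : ∀ v ∈ AGF.verts T, ∃ e ∈ E, v ∈ e) :
    (ofTri hP.isTri).Geo ptT where
  ccw0 t ht := (cor_spec hP.isTri ht).2
  mat a ha := mat_ofTri hP.isTri ha
  disj0 t ht s hs hne := otri_disjoint hP.isTri ht hs hne 0 0
  asum p := by
    have hT' := hP.tri
    set A := (ofTri hP.isTri).sides.filter (fun a => ptT a = p) with hA
    rcases A.eq_empty_or_nonempty with h0 | ⟨a0, ha0⟩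
    · rw [h0, Finset.sum_empty]
      positivity
    · rw [hA, Finset.mem_filter, mem_sides_ofTri] at ha0
      have hv : p ∈ AGF.verts T := by
        rw [AGF.mem_verts]
        refine ⟨a0.1, ha0.1, ?_⟩
        rw [← ha0.2]
        exact cor_mem hP.isTri ha0.1 a0.2
      obtain ⟨e, he, hpe⟩ := hdeg p hv
      obtain ⟨t, -, t', ht', hnt', -, het'⟩ := hP.edge_one e he
      obtain ⟨j, hj⟩ := exists_cor hT' ht' (het' hpe)
      set a' : Sd (Finset Pt) := (t', j) with ha'
      have hA' : ∀ a ∈ insert a' A, a.1 ∈ T' ∧ ptT a = p := by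
        intro a ha
        rw [Finset.mem_insert] at ha
        rcases ha with rfl | ha
        · exact ⟨ht', hj⟩
        · rw [hA, Finset.mem_filter, mem_sides_ofTri] at ha
          exact ⟨hP.sub ha.1, ha.2⟩
      have hnot : a' ∉ A := by
        intro h
        rw [hA, Finset.mem_filter, mem_sides_ofTri] at h
        exact hnt' h.1
      have key := sum_ang_le (insert a' A) p (fun a => ptT (rot a)) (fun a => ptT (unrot a))
        (by
          intro a ha
          have h1 := ccw_ptT hT' (hA' a ha).1
          rw [(hA' a ha).2] at h1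
          exact h1)
        (by
          intro a ha b hb hab
          have h1 : a.1 ≠ b.1 := by
            intro h
            apply hab
            have h2 : cor a.1 a.2 = cor a.1 b.2 := by
              have h3 : ptT a = ptT b := (hA' a ha).2.trans (hA' b hb).2.symm
              unfold ptT at h3
              rw [h3, h]
            exact Prod.ext h (cor_inj hT' (hA' a ha).1 h2)
          have h2 := otri_disjoint' hT' (hA' a ha).1 (hA' b hb).1 h1
          rw [(hA' a ha).2, (hA' b hb).2] at h2
          exact h2)
      rw [Finset.sum_insert hnot] at key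
      have hpos : 0 < ang p (ptT (rot a')) (ptT (unrot a')) := by
        have h1 := ccw_ptT hT' (a := a') ht'
        have h2 : ptT a' = p := hj
        rw [h2] at h1
        exact ang_pos h1
      have e1 : ∑ a ∈ A, cang ptT a = ∑ a ∈ A, ang p (ptT (rot a)) (ptT (unrot a)) := by
        refine Finset.sum_congr rfl fun a ha => ?_
        unfold cang
        rw [(hA' a (Finset.mem_insert_of_mem ha)).2]
      rw [e1]
      linarith

end AG

end
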