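import Pool.Agent.AG.Statement
import Pool.Agent.Helper94.UR.Two
import Pool.Agent.Helper94.UR.Outer
import Pool.Agent.Helper94.UR.RegionB

/-!
# The region bounded by a simple polygon near its boundary
-/

set_option autoImplicit false

namespace Pool.Agent.AG

open Topology
open Pool.Agent.Helper94.UR (ept sideSet)

/-- Twice the signed area of the triangle `a b c`. -/
def crs (a b c : ℝ × ℝ) : ℝ := (b.1 - a.1) * (c.2 - a.2) - (b.2 - a.2) * (c.1 - a.1)

variable {k : ℕ} {v : ZMod k → ℝ × ℝ}

theorem isSimple_iff : IsSimple v ↔ Pool.Agent.Helper20.Flip.IsSimple v := Iff.rfl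

theorem curve_eq : curve v = Pool.Agent.Helper97.UDP.curve v := rfl

theorem region_eq : region v = Pool.Agent.Helper97.UDP.region v := rfl

theorem crs_eq (a b c : ℝ × ℝ) : crs a b c = Pool.Agent.Helper20.Flip.cross a b c := rfl

theorem IsSimple.neZero (hv : IsSimple v) : NeZero k := ⟨by have := hv.1; omega⟩

theorem IsSimple.injective (hv : IsSimple v) : Function.Injective v := by
  intro i j hij
  by_contra hne
  rcases hv.2.2 i j hne (v i) (left_mem_segment _ _ _) (hij ▸ left_mem_segment _ _ _) with
    ⟨h1, h2⟩ | ⟨h1, h2⟩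
  · rw [h1] at h2
    exact hv.2.1 i h2
  · have h3 : v j = v (j + 1) := by rw [← h1]; exact hij.symm
    exact hv.2.1 j h3

theorem isCompact_segment (a b : ℝ × ℝ) : IsCompact (segment ℝ a b) := by
  rw [← convexHull_pair]
  have h2 : ({a, b} : Set (ℝ × ℝ)).Finite := Set.toFinite _
  exact h2.isCompact_convexHull (𝕜 := ℝ)

theorem isCompact_curve [NeZero k] (v : ZMod k → ℝ × ℝ) : IsCompact (curve v) := by
  have e : curve v = ⋃ i, segment ℝ (v i) (v (i + 1)) := by
    ext p
    simp [curve]
  rw [e]
  exact isCompact_iUnion fun i => isCompact_segment _ _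

theorem isCompact_region (hv : IsSimple v) : IsCompact (region v) :=
  Pool.Agent.Helper94.UR.isCompact_region hv

theorem curve_subset_region : curve v ⊆ region v := fun _ hp => Or.inl hp

theorem region_mem_nhds (hv : IsSimple v) {p : ℝ × ℝ} (hp : p ∈ region v) (hp' : p ∉ curve v) :
    region v ∈ 𝓝 p :=
  Pool.Agent.Helper94.UR.region_mem_nhds hv hp hp'

theorem curve_subset_closure_compl (hv : IsSimple v) : curve v ⊆ closure (region v)ᶜ := by
  rintro p ⟨i, a, b, ha, hb, hab, rfl⟩
  have he : ∀ t : ℝ, 0 < t → t < 1 → ept v i t ∈ closure (region v)ᶜ := fun t h1 h2 =>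
    Pool.Agent.Helper94.UR.ept_mem_closure hv i h1 h2
  have hcont : Continuous fun t : ℝ => ept v i t := by
    unfold ept
    fun_prop
  have hcl : ∀ t ∈ closure (Set.Ioo (0 : ℝ) 1), ept v i t ∈ closure (region v)ᶜ := by
    intro t ht
    have := (hcont.continuousOn (s := Set.univ)).mono (Set.subset_univ (closure (Set.Ioo (0 : ℝ) 1)))
    have h2 := map_mem_closure hcont ht (t := (closure (region v)ᶜ)) (fun s hs => he s hs.1 hs.2)
    rwa [closure_closure] at h2
  have hb1 : b ∈ closure (Set.Ioo (0 : ℝ) 1) := by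
    rw [closure_Ioo (by norm_num)]
    exact ⟨hb, by linarith⟩
  have := hcl b hb1
  have e : ept v i b = a • v i + b • v (i + 1) := by
    unfold ept
    have : a = 1 - b := by linarith
    rw [this, smul_sub, sub_smul, one_smul]
    abel
  rwa [e] at this

theorem curve_disjoint_interior (hv : IsSimple v) : Disjoint (curve v) (interior (region v)) := by
  rw [Set.disjoint_left]
  intro p hp hpi
  have h1 := curve_subset_closure_compl hv hp
  rw [closure_compl] at h1
  exact h1 hpi

theorem interior_region (hv : IsSimple v) : interior (region v) = region v \ curve v := by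
  ext p
  constructor
  · intro hp
    exact ⟨interior_subset hp, fun hc => Set.disjoint_left.1 (curve_disjoint_interior hv) hc hp⟩
  · rintro ⟨h1, h2⟩
    exact mem_interior_iff_mem_nhds.2 (region_mem_nhds hv h1 h2)

/-- The region near an inner point of an edge is the closed half plane on the inner side. -/
theorem exists_sign (hv : IsSimple v) : ∃ s : ℝ, (s = 1 ∨ s = -1) ∧
    ∀ (i : ZMod k) (t : ℝ), 0 < t → t < 1 → ∀ᶠ q in 𝓝 (ept v i t),
      ((q ∈ region v ↔ 0 ≤ s * crs (v i) (v (i + 1)) q) ∧
        (q ∈ interior (region v) ↔ 0 < s * crs (v i) (v (i + 1)) q)) := by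
  obtain ⟨s, hs, hout⟩ := Pool.Agent.Helper94.UR.exists_out_side hv
  refine ⟨-s, by rcases hs with rfl | rfl <;> simp, fun i t ht ht' => ?_⟩
  have hin : ∀ p ∈ sideSet v (-s), p ∈ region v := by
    intro p hp
    by_contra hpr
    -- a point of the outer side
    have hne : 0 < ((v (i + 1)).1 - (v i).1) ^ 2 + ((v (i + 1)).2 - (v i).2) ^ 2 := by
      rcases eq_or_ne ((v (i + 1)).1 - (v i).1) 0 with h | h
      · rcases eq_or_ne ((v (i + 1)).2 - (v i).2) 0 with h' | h'
        · exact absurd (Prod.ext (by linarith) (by linarith)) (hv.2.1 i)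
        · positivity
      · positivity
    have hu : 0 < s * crs (v i) (v (i + 1)) (v i + s • Pool.Agent.Helper94.UR.nrm v i) := by
      have hss : s * s = 1 := by rcases hs with rfl | rfl <;> norm_num
      have e : s * crs (v i) (v (i + 1)) (v i + s • Pool.Agent.Helper94.UR.nrm v i) =
          (s * s) * (((v (i + 1)).1 - (v i).1) ^ 2 + ((v (i + 1)).2 - (v i).2) ^ 2) := by
        unfold crs Pool.Agent.Helper94.UR.nrm
        simp only [Prod.fst_add, Prod.snd_add, Prod.smul_fst, Prod.smul_snd, smul_eq_mul]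
        ring
      rw [e, hss, one_mul]
      exact hne
    obtain ⟨q, hq⟩ := (Pool.Agent.Helper94.UR.eventually_side hv i ht ht' hu).exists
    have h1 := hout _ hq
    have h2 := Pool.Agent.Helper94.UR.same_outer hv hpr h1
    rcases hs with rfl | rfl
    · have h3 := Pool.Agent.Helper94.UR.same_outer hv h1 hpr
      exact Pool.Agent.Helper94.UR.sides_ne hv hq hp h3
    · rw [neg_neg] at hp
      exact Pool.Agent.Helper94.UR.sides_ne hv hp hq h2
  obtain ⟨r, hr, hball⟩ := Pool.Agent.Helper94.UR.exists_halfball hv i ht ht'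
  -- near the point, the line is contained in the edge
  have hline : ∀ᶠ q in 𝓝 (ept v i t), crs (v i) (v (i + 1)) q = 0 → q ∈ curve v := by
    have hd : v (i + 1) - v i ≠ 0 := sub_ne_zero.2 (hv.2.1 i).symm
    set d : ℝ × ℝ := v (i + 1) - v i with hdd
    have hN : 0 < d.1 ^ 2 + d.2 ^ 2 := by
      rcases eq_or_ne d.1 0 with h | h
      · rcases eq_or_ne d.2 0 with h' | h'
        · exact absurd (Prod.ext h h') hd
        · positivity
      · positivity
    -- the parameter of the projection
    let f : ℝ × ℝ → ℝ := fun q => ((q.1 - (v i).1) * d.1 + (q.2 - (v i).2) * d.2) /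
      (d.1 ^ 2 + d.2 ^ 2)
    have hf : Continuous f := by
      simp only [f]
      fun_prop
    have hft : f (ept v i t) = t := by
      simp only [f, ept, Prod.fst_add, Prod.snd_add, Prod.smul_fst, Prod.smul_snd, smul_eq_mul,
        ← hdd]
      field_simp
      ring
    have hev : ∀ᶠ q in 𝓝 (ept v i t), f q ∈ Set.Ioo (0 : ℝ) 1 :=
      hf.continuousAt.eventually (by
        rw [hft]
        exact Ioo_mem_nhds ht ht')
    filter_upwards [hev] with q hq hc
    refine ⟨i, 1 - f q, f q, by linarith [hq.2], hq.1.le, by ring, ?_⟩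
    have e1 : d.1 * (q.2 - (v i).2) = d.2 * (q.1 - (v i).1) := by
      unfold crs at hc
      simp only [hdd, Prod.fst_sub, Prod.snd_sub]
      linarith
    have e2 : f q * (d.1 ^ 2 + d.2 ^ 2) = (q.1 - (v i).1) * d.1 + (q.2 - (v i).2) * d.2 := by
      simp only [f]
      field_simp
    have e3 : v (i + 1) = v i + d := by rw [hdd]; abel
    rw [e3]
    ext
    · simp only [Prod.fst_add, Prod.smul_fst, smul_eq_mul]
      have : (f q * d.1 - (q.1 - (v i).1)) * (d.1 ^ 2 + d.2 ^ 2) = 0 := by
        linear_combination d.1 * e2 + d.2 * e1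
      rcases mul_eq_zero.1 this with h | h
      · linarith
      · exact absurd h hN.ne'
    · simp only [Prod.snd_add, Prod.smul_snd, smul_eq_mul]
      have : (f q * d.2 - (q.2 - (v i).2)) * (d.1 ^ 2 + d.2 ^ 2) = 0 := by
        linear_combination d.2 * e2 - d.1 * e1
      rcases mul_eq_zero.1 this with h | h
      · linarith
      · exact absurd h hN.ne'
  filter_upwards [Metric.ball_mem_nhds _ hr, hline] with q hq hq0
  have hside : ∀ s' : ℝ, 0 < s' * crs (v i) (v (i + 1)) q → q ∈ sideSet v s' := by
    intro s' h0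
    refine ⟨i, t, ht, ht', h0, fun τ h1 h2 => ?_⟩
    have hcr : Pool.Agent.Helper20.Flip.cross (v i) (v (i + 1))
        (ept v i t + τ • (q - ept v i t)) = τ * crs (v i) (v (i + 1)) q := by
      unfold crs Pool.Agent.Helper20.Flip.cross ept
      simp only [Prod.fst_add, Prod.snd_add, Prod.smul_fst, Prod.smul_snd, smul_eq_mul,
        Prod.fst_sub, Prod.snd_sub]
      ring
    apply hball
    · rw [Metric.mem_ball, dist_eq_norm, add_sub_cancel_left, norm_smul, Real.norm_eq_abs,
        abs_of_pos h1]
      rw [Metric.mem_ball, dist_eq_norm] at hq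
      calc τ * ‖q - ept v i t‖ ≤ 1 * ‖q - ept v i t‖ := by gcongr
        _ = ‖q - ept v i t‖ := one_mul _
        _ < r := hq
    · rw [hcr]
      refine mul_ne_zero h1.ne' fun h => ?_
      rw [h, mul_zero] at h0
      exact lt_irrefl _ h0
  have hcr : ∀ s' : ℝ, 0 < s' * crs (v i) (v (i + 1)) q → q ∉ curve v := by
    intro s' h0
    refine hball q hq fun h => ?_
    have h' : crs (v i) (v (i + 1)) q = 0 := h
    rw [h', mul_zero] at h0
    exact lt_irrefl _ h0
  rcases lt_trichotomy (-s * crs (v i) (v (i + 1)) q) 0 with h | h | h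
  · have h' : 0 < s * crs (v i) (v (i + 1)) q := by linarith
    have h1 := hout _ (hside s h')
    refine ⟨⟨fun h2 => absurd h2 h1, fun h2 => absurd h2 (not_le.2 h)⟩,
      ⟨fun h2 => absurd (interior_subset h2) h1, fun h2 => absurd h2 (by linarith)⟩⟩
  · have h0 : crs (v i) (v (i + 1)) q = 0 := by
      rcases mul_eq_zero.1 h with h3 | h3
      · rcases hs with rfl | rfl <;> norm_num at h3
      · exact h3
    have h1 := hq0 h0
    refine ⟨⟨fun _ => h.ge, fun _ => curve_subset_region h1⟩,
      ⟨fun h2 => absurd h2 (Set.disjoint_left.1 (curve_disjoint_interior hv) h1),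
        fun h2 => absurd h2 (by linarith)⟩⟩
  · have h1 := hin _ (hside (-s) h)
    refine ⟨⟨fun _ => h.le, fun _ => h1⟩, ⟨fun _ => h, fun _ => ?_⟩⟩
    rw [interior_region hv]
    exact ⟨h1, hcr _ h⟩

end Pool.Agent.AG
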